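import Pool.Agent.J4H25.NPP.Ex
import Pool.Agent.J4H81.NPP.C1

set_option autoImplicit false

/-!
# Capturing with a small threshold
-/

namespace Pool.Agent.J4H25.NPB

open MeasureTheory Filter Pool.Agent.NPC Pool.Agent.H628R3.RO Pool.Agent.J4H63.ESY Pool.Agent.J4H45.OPT
open Pool.Agent.J4H45.EXP (T wds T_strictMono le_T T_pos two_pow_T_le two_pow_T_lt mem_wds card_wds)
open Pool.Agent.J4H25.NPP
open Pool.Agent.J4H98.NPP (mem_congr plant_congr)
open Pool.Agent.J4H81.NPP (touched off_plant hit_plant plant_union Off)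
open Pool.Agent.J4H45.NPP (ev measure_ev measurable_ev Wn mem_Wn card_Wn sum_measure_ev sum_ev)
open Pool.Agent.H628R3.RO.M2 (measurableSet_hit)

/-- the exponent at level `m`, for the threshold `2 ^ (-e)` -/
def bx (e m : ℕ) : ℕ := ax m + (2 * e + 8)

theorem bx_le (e m : ℕ) : bx e m ≤ m + 16 + 2 * e := by
  have := ax_le' m
  unfold bx
  omega

section

variable (O : Oracle → Oracle) (M : ℕ → Alg) (p : ℕ → Polynomial ℕ) (K e : ℕ)

open Classical in
/-- the words `w` such that planting the candidate `(c, w)` with `m` bits puts `q` into the set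
number `s` -/
noncomputable def good2 (A : Oracle) (s c n m : ℕ) (q : List Bool) : Finset (List Bool) :=
  (wds n).filter fun w => Mem (M s) (p s) (O (plant (spots m (c, w)) A)) q

/-- planting puts `q` into the set number `s` with probability at least `2 ^ (-e)` -/
def Hvy (A : Oracle) (s n m : ℕ) (q : List Bool) : Prop :=
  ∃ c < 2, 2 ^ n ≤ 2 ^ e * (good2 O M p A s c n m q).card

/-- the pair captures stage `i` at level `l` -/
def Cap2 (i l : ℕ) : Set Oracle :=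
  {A | ∃ q : List Bool, K * q.length.size ≤ T i ∧ Hvy O M p e A 0 (T i) (T i + bx e l) q ∧
    Hvy O M p e A 1 (T i) (T i + bx e l) q}

end

theorem mem_good2 {O : Oracle → Oracle} {M : ℕ → Alg} {p : ℕ → Polynomial ℕ} {A : Oracle}
    {s c n m : ℕ} {q w : List Bool} : w ∈ good2 O M p A s c n m q ↔
      w.length = n ∧ Mem (M s) (p s) (O (plant (spots m (c, w)) A)) q := by
  classical
  unfold good2
  rw [Finset.mem_filter, mem_wds]

/-- the constants are suitable -/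
structure Ok2 (M : ℕ → Alg) (p : ℕ → Polynomial ℕ) (K i0 e : ℕ) : Prop where
  ok : Ok M p K i0
  touch : ∀ i ≥ i0, ∀ q : List Bool, K * q.length.size ≤ T i → ∀ c < 2, ∀ u : List Bool,
    u.length ≤ (p c).eval q.length →
      2 ^ (2 * e + 5) * (M c).p.eval (pairBits q u).length ≤ 2 ^ T i
  big : ∀ i ≥ i0, 5 * T i + (2 * e + 40) ≤ 2 ^ T i
  large : ∀ i ≥ i0, 2 * e + 8 ≤ T i

theorem Ok.mono {M : ℕ → Alg} {p : ℕ → Polynomial ℕ} {K i0 K' i0' : ℕ} (ok : Ok M p K i0)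
    (hK : K ≤ K') (hi : i0 ≤ i0') : Ok M p K' i0' := by
  have h : ∀ (q : List Bool) (n : ℕ), K' * q.length.size ≤ n → K * q.length.size ≤ n :=
    fun q n h => (Nat.mul_le_mul_right _ hK).trans h
  exact ⟨ok.pos.trans hK, fun i hi' q hq => ok.len i (hi.trans hi') q (h q _ hq),
    fun i hi' q hq => ok.touch i (hi.trans hi') q (h q _ hq),
    fun i hi' q hq => ok.congr i (hi.trans hi') q (h q _ hq),
    fun i hi' => ok.spots i (hi.trans hi')⟩

theorem exists_ok2 (M : ℕ → Alg) (p : ℕ → Polynomial ℕ) (e : ℕ) : ∃ K i0, Ok2 M p K i0 e := by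
  obtain ⟨K1, i1, ok1⟩ := Pool.Agent.J4H98.NPP.t_OK M p
  obtain ⟨K2, i2, ok2⟩ := Pool.Agent.J4H98.NPP.t_OK
    (fun c => ⟨(M c).D, (M c).poly, Polynomial.C (2 ^ (2 * e)) * (M c).p⟩) p
  obtain ⟨N, hN⟩ := eventually_atTop.1 (H529R3.Lev.poly_le_two_pow
    (Polynomial.C 5 * Polynomial.X + Polynomial.C (2 * e + 40)))
  refine ⟨K1 + K2, i1 + i2 + N + (2 * e + 8), Ok.mono ok1 (by omega) (by omega), ?_, ?_, ?_⟩
  · intro i hi q hq c hc u hu
    have h1 := ok2.touch i (by omega) q (by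
      refine le_trans ?_ hq
      exact Nat.mul_le_mul_right _ (by omega)) c hc u hu
    rw [Polynomial.eval_mul, Polynomial.eval_C] at h1
    rw [pow_add]
    have e1 : (2 : ℕ) ^ 5 = 32 := by norm_num
    rw [e1]
    calc 2 ^ (2 * e) * 32 * (M c).p.eval (pairBits q u).length =
        32 * (2 ^ (2 * e) * (M c).p.eval (pairBits q u).length) := by ring
      _ ≤ _ := h1
  · intro i hi
    have h1 := le_T i
    have h2 := hN (T i) (by omega)
    simpa only [Polynomial.eval_add, Polynomial.eval_mul, Polynomial.eval_C,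
      Polynomial.eval_X] using h2
  · intro i hi
    have := le_T i
    omega

/-! ### Locality -/

section

variable {O : Oracle → Oracle} (E : Emb2 O) {M : ℕ → Alg} {p : ℕ → Polynomial ℕ} {K i0 e : ℕ}
  (ok : Ok2 M p K i0 e)

include E ok in
theorem good2_congr {i : ℕ} (hi : i0 ≤ i) {q : List Bool} (hq : K * q.length.size ≤ T i) {s : ℕ}
    (hs : s < 2) (c n m : ℕ) {A A' : Oracle}
    (hA : ∀ x : List Bool, x.length ≤ 2 ^ T i → A x = A' x) :
    good2 O M p A s c n m q = good2 O M p A' s c n m q := by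
  classical
  unfold good2
  exact Finset.filter_congr fun w _ => mem_congr E ok.ok hi hq hs (plant_congr hA)

include E ok in
theorem loc_Cap2 {i : ℕ} (hi : i0 ≤ i) (l : ℕ) :
    Loc {x | x.length ≤ 2 ^ T i} (Cap2 O M p K e i l) := by
  intro A A' hA
  refine exists_congr fun q => and_congr_right fun hq => ?_
  unfold Hvy
  refine and_congr ?_ ?_
  · refine exists_congr fun c => and_congr_right fun _ => ?_
    rw [good2_congr E ok hi hq (by norm_num : 0 < 2) c _ _ hA]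
  · refine exists_congr fun c => and_congr_right fun _ => ?_
    rw [good2_congr E ok hi hq (by norm_num : 1 < 2) c _ _ hA]

end

/-! ### Pairs of different hits -/

/-- the pairs of different candidates -/
def W2 (n : ℕ) : Finset (Cand × Cand) := ((Wn n) ×ˢ (Wn n)).filter (fun t => t.1 ≠ t.2)

theorem sum_le_of_count' {ι κ : Type} (I : Finset ι) (B : ι → Set Oracle) (J : Finset κ)
    (D : κ → Set Oracle) {S0 : Set Oracle} (c0 c1 : ENNReal) (hB : ∀ i, MeasurableSet (B i))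
    (hD : ∀ i, MeasurableSet (D i)) (hS : MeasurableSet S0)
    (h : ∀ A, ∑ i ∈ I, (B i).indicator (fun _ => (1 : ENNReal)) A ≤
      c0 * S0.indicator (fun _ => 1) A + c1 * ∑ j ∈ J, (D j).indicator (fun _ => 1) A) :
    ∑ i ∈ I, randomOracle (B i) ≤ c0 * randomOracle S0 + c1 * ∑ j ∈ J, randomOracle (D j) := by
  have e1 : ∀ X : Set Oracle, MeasurableSet X →
      ∫⁻ A, X.indicator (fun _ => (1 : ENNReal)) A ∂randomOracle = randomOracle X := by
    intro X hX
    rw [lintegral_indicator_const hX, one_mul]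
  have m1 : ∀ X : Set Oracle, MeasurableSet X →
      Measurable (X.indicator (fun _ => (1 : ENNReal))) :=
    fun X hX => measurable_const.indicator hX
  have m2 : Measurable (fun A => ∑ j ∈ J, (D j).indicator (fun _ => (1 : ENNReal)) A) :=
    Finset.measurable_sum _ fun i _ => m1 _ (hD i)
  calc ∑ i ∈ I, randomOracle (B i)
      = ∑ i ∈ I, ∫⁻ A, (B i).indicator (fun _ => (1 : ENNReal)) A ∂randomOracle :=
        Finset.sum_congr rfl fun i _ => (e1 _ (hB i)).symm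
    _ = ∫⁻ A, ∑ i ∈ I, (B i).indicator (fun _ => (1 : ENNReal)) A ∂randomOracle :=
        (lintegral_finsetSum' _ fun i _ => (m1 _ (hB i)).aemeasurable).symm
    _ ≤ ∫⁻ A, (c0 * S0.indicator (fun _ => 1) A + c1 * ∑ j ∈ J, (D j).indicator (fun _ => 1) A)
          ∂randomOracle := lintegral_mono h
    _ = ∫⁻ A, c0 * S0.indicator (fun _ => 1) A ∂randomOracle +
          ∫⁻ A, c1 * ∑ j ∈ J, (D j).indicator (fun _ => 1) A ∂randomOracle :=
        lintegral_add_left ((m1 _ hS).const_mul _) _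
    _ = c0 * randomOracle S0 + c1 * ∑ j ∈ J, randomOracle (D j) := by
        rw [lintegral_const_mul _ (m1 _ hS), lintegral_const_mul _ m2, e1 _ hS,
          lintegral_finsetSum' _ fun i _ => (m1 _ (hD i)).aemeasurable]
        congr 2
        exact Finset.sum_congr rfl fun i _ => e1 _ (hD i)

theorem count_pairs (N : ℕ) : N * N - N ≤ 2 + 6 * N.choose 3 := by
  have h1 : ∀ N : ℕ, N * N ≤ 2 + N + 6 * N.choose 3 := by
    intro N
    induction N with
    | zero => norm_num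
    | succ N ih =>
      have h1 : (N + 1).choose 3 = N.choose 2 + N.choose 3 := Nat.choose_succ_succ N 2
      have h2 : 2 * N.choose 2 = N * (N - 1) := by
        rw [Nat.choose_two_right]
        exact Nat.mul_div_cancel' (Nat.even_mul_pred_self N).two_dvd
      rcases Nat.eq_zero_or_pos N with h0 | h0
      · subst h0
        norm_num
        omega
      · obtain ⟨k, rfl⟩ : ∃ k, N = k + 1 := ⟨N - 1, by omega⟩
        rw [Nat.add_sub_cancel] at h2
        rw [h1]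
        rcases Nat.eq_zero_or_pos k with hk | hk
        · subst hk
          omega
        · nlinarith
  have := h1 N
  omega

open Classical in
theorem up2 {n a : ℕ} {R S : Set Oracle} (hR : Loc {x | x.length ≤ n} R)
    (hS : MeasurableSet S) :
    ∑ t ∈ W2 n, randomOracle (R ∩ S ∩ {A | Hit (n + a) t.1 A ∧ Hit (n + a) t.2 A}) ≤
      2 * randomOracle (R ∩ S) + 48 * 2⁻¹ ^ (3 * a) * randomOracle R := by
  have hRm : MeasurableSet R := measurableSet_of_loc (finite_length_le n) hR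
  have hRS : MeasurableSet (R ∩ S) := hRm.inter hS
  have h1 := sum_le_of_count' (W2 n)
    (fun t => R ∩ S ∩ {A | Hit (n + a) t.1 A ∧ Hit (n + a) t.2 A})
    ((Wn n).powersetCard 3) (fun L => R ∩ ev (n + a) L) (S0 := R ∩ S) 2 6
    (fun t => hRS.inter ((measurableSet_hit _ _).inter (measurableSet_hit _ _)))
    (fun L => hRm.inter (measurable_ev _ _)) hRS ?_
  · have h2 := sum_measure_ev (a := a) hR (fun κ hκ => (mem_Wn.1 hκ).2) (card_Wn n) 3
    refine h1.trans ?_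
    refine add_le_add le_rfl ?_
    calc 6 * ∑ L ∈ (Wn n).powersetCard 3, randomOracle (R ∩ ev (n + a) L)
        ≤ 6 * (2 ^ 3 * 2⁻¹ ^ (3 * a) * randomOracle R) := by gcongr
      _ = 48 * 2⁻¹ ^ (3 * a) * randomOracle R := by ring
  · intro A
    by_cases hA : A ∈ R ∩ S
    · rw [sum_ev (Wn n) (n + a) 3 hA.1, Set.indicator_of_mem hA]
      set H := (Wn n).filter (fun κ => Hit (n + a) κ A) with hH
      have e1 : ∑ t ∈ W2 n, (R ∩ S ∩ {A | Hit (n + a) t.1 A ∧
          Hit (n + a) t.2 A}).indicator (fun _ => (1 : ENNReal)) A =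
          ((H.offDiag.card : ℕ) : ENNReal) := by
        simp only [Set.indicator_apply]
        rw [Finset.sum_boole]
        congr 2
        ext t
        unfold W2
        rw [Finset.mem_filter, Finset.mem_filter, Finset.mem_product, Finset.mem_offDiag, hH,
          Finset.mem_filter, Finset.mem_filter]
        constructor
        · rintro ⟨⟨⟨h1, h2⟩, h3⟩, h4⟩
          exact ⟨⟨h1, h4.2.1⟩, ⟨h2, h4.2.2⟩, h3⟩
        · rintro ⟨⟨h1, h2⟩, ⟨h3, h4⟩, h5⟩
          exact ⟨⟨⟨h1, h3⟩, h5⟩, hA, h2, h4⟩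
      rw [e1, Finset.offDiag_card]
      exact_mod_cast by simpa using count_pairs H.card
    · have e1 : ∑ t ∈ W2 n, (R ∩ S ∩ {A | Hit (n + a) t.1 A ∧
          Hit (n + a) t.2 A}).indicator (fun _ => (1 : ENNReal)) A = 0 := by
        refine Finset.sum_eq_zero fun κ _ => ?_
        exact Set.indicator_of_notMem (fun h => hA h.1) _
      rw [e1]
      exact zero_le

/-! ### The double planting -/

theorem card_badG {α : Type} [DecidableEq α] (G0 G1 : Finset α) (S : α → Finset α) (B N : ℕ)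
    (h0 : G0.card ≤ N) (hS : ∀ w ∈ G0, B * (S w).card ≤ N) :
    B * ((G0 ×ˢ G1).filter (fun t => t.2 ∈ S t.1)).card ≤ N * N := by
  have h1 : (G0 ×ˢ G1).filter (fun t => t.2 ∈ S t.1) ⊆
      G0.biUnion (fun w => ({w} : Finset α) ×ˢ S w) := by
    intro t ht
    rw [Finset.mem_filter, Finset.mem_product] at ht
    rw [Finset.mem_biUnion]
    exact ⟨t.1, ht.1.1, Finset.mem_product.2 ⟨Finset.mem_singleton_self _, ht.2⟩⟩
  have h2 := (Finset.card_le_card h1).trans Finset.card_biUnion_le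
  have h3 : ∑ w ∈ G0, (({w} : Finset α) ×ˢ S w).card = ∑ w ∈ G0, (S w).card := by
    refine Finset.sum_congr rfl fun w _ => ?_
    rw [Finset.card_product, Finset.card_singleton, one_mul]
  rw [h3] at h2
  calc B * ((G0 ×ˢ G1).filter (fun t => t.2 ∈ S t.1)).card ≤ B * ∑ w ∈ G0, (S w).card :=
        Nat.mul_le_mul_left _ h2
    _ = ∑ w ∈ G0, B * (S w).card := by rw [Finset.mul_sum]
    _ ≤ ∑ w ∈ G0, N := Finset.sum_le_sum hS
    _ = G0.card * N := by rw [Finset.sum_const, smul_eq_mul]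
    _ ≤ N * N := Nat.mul_le_mul_right _ h0

theorem card_badG' {α : Type} [DecidableEq α] (G0 G1 : Finset α) (S : α → Finset α) (B N : ℕ)
    (h1 : G1.card ≤ N) (hS : ∀ w ∈ G1, B * (S w).card ≤ N) :
    B * ((G0 ×ˢ G1).filter (fun t => t.1 ∈ S t.2)).card ≤ N * N := by
  have h := card_badG G1 G0 S B N h1 hS
  refine le_trans ?_ h
  refine Nat.mul_le_mul_left _ ?_
  refine Finset.card_le_card_of_injOn (fun t => (t.2, t.1)) ?_ ?_
  · intro t ht
    rw [Finset.mem_coe, Finset.mem_filter, Finset.mem_product] at ht ⊢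
    exact ⟨⟨ht.1.2, ht.1.1⟩, ht.2⟩
  · intro t _ t' _ h
    simp only [Prod.mk.injEq] at h
    exact Prod.ext h.2 h.1

section

variable {O : Oracle → Oracle} (E : Emb2 O) {M : ℕ → Alg} {p : ℕ → Polynomial ℕ} {K i0 e : ℕ}
  (ok : Ok2 M p K i0 e)

include E ok in
theorem plant_Cap2 {i : ℕ} (hi : i0 ≤ i) (l : ℕ) {A : Oracle} (hA : A ∈ Cap2 O M p K e i l) :
    ∃ I' ⊆ W2 (T i), 4 ^ T i ≤ 2 * 4 ^ e * I'.card ∧
      ∀ t ∈ I', plant (spots (T i + bx e l) t.1 ∪ spots (T i + bx e l) t.2) A ∈ Er O M p K i := by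
  classical
  obtain ⟨q, hq, ⟨c, hc, h0⟩, c', hc', h1⟩ := hA
  have key : ∀ s < 2, ∀ d < 2, ∀ w ∈ good2 O M p A s d (T i) (T i + bx e l) q,
      ∃ S : Finset (List Bool), 2 ^ (2 * e + 5) * S.card ≤ 2 ^ T i ∧
        ∀ w' : List Bool, w'.length = T i → w' ∉ S → ∀ A' : Oracle,
        Off w' (plant (spots (T i + bx e l) (d, w)) A) A' → Mem (M s) (p s) (O A') q := by
    intro s hs d _ w hw
    obtain ⟨-, u, hu, ho⟩ := mem_good2.1 hw
    obtain ⟨S, hS, hf⟩ := touched E.toEmb (M s) (plant (spots (T i + bx e l) (d, w)) A)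
      (pairBits q u) (T i)
    refine ⟨S, ?_, fun w' hw' hS' A' hA' => ⟨u, hu, ?_⟩⟩
    · have h3 := ok.touch i hi q hq s hs u hu
      exact (Nat.mul_le_mul_left _ hS).trans h3
    · rw [hf w' hw' hS' A' hA', ho]
  choose! S hS hf using key
  set G0 := good2 O M p A 0 c (T i) (T i + bx e l) q with hG0
  set G1 := good2 O M p A 1 c' (T i) (T i + bx e l) q with hG1
  have csub : ∀ s d, good2 O M p A s d (T i) (T i + bx e l) q ⊆ wds (T i) :=
    fun s d w hw => mem_wds.2 (mem_good2.1 hw).1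
  have c0 : G0.card ≤ 2 ^ T i := by
    rw [← card_wds]
    exact Finset.card_le_card (csub _ _)
  have c1 : G1.card ≤ 2 ^ T i := by
    rw [← card_wds]
    exact Finset.card_le_card (csub _ _)
  have b0 := card_badG G0 G1 (S 0 c) (2 ^ (2 * e + 5)) (2 ^ T i) c0
    (fun w hw => hS 0 (by norm_num) c hc w hw)
  have b1 := card_badG' G0 G1 (S 1 c') (2 ^ (2 * e + 5)) (2 ^ T i) c1
    (fun w hw => hS 1 (by norm_num) c' hc' w hw)
  have b2 := card_badG G0 G1 (fun w => {w}) (2 ^ (2 * e + 5)) (2 ^ T i) c0 (fun w _ => by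
    rw [Finset.card_singleton, mul_one]
    exact Nat.pow_le_pow_right (by norm_num) (by have := ok.large i hi; omega))
  set B0 := (G0 ×ˢ G1).filter (fun t => t.2 ∈ S 0 c t.1) with hB0
  set B1 := (G0 ×ˢ G1).filter (fun t => t.1 ∈ S 1 c' t.2) with hB1
  set B2 := (G0 ×ˢ G1).filter (fun t => t.2 ∈ ({t.1} : Finset (List Bool))) with hB2
  set I0 := (((G0 ×ˢ G1) \ B0) \ B1) \ B2 with hI0
  have hinj : Function.Injective (fun t : List Bool × List Bool => (((c, t.1), (c', t.2)) :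
      Cand × Cand)) := by
    intro t t' h
    simp only [Prod.mk.injEq, true_and] at h
    exact Prod.ext h.1 h.2
  have hmem : ∀ t ∈ I0, (t.1 ∈ G0 ∧ t.2 ∈ G1) ∧ t.2 ∉ S 0 c t.1 ∧ t.1 ∉ S 1 c' t.2 ∧
      t.2 ≠ t.1 := by
    intro t ht
    rw [hI0, Finset.mem_sdiff, Finset.mem_sdiff, Finset.mem_sdiff, hB0, hB1, hB2,
      Finset.mem_filter, Finset.mem_filter, Finset.mem_filter, Finset.mem_product,
      Finset.mem_singleton] at ht
    obtain ⟨⟨⟨hw, hb0⟩, hb1⟩, hb2⟩ := ht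
    exact ⟨hw, fun h => hb0 ⟨hw, h⟩, fun h => hb1 ⟨hw, h⟩, fun h => hb2 ⟨hw, h⟩⟩
  refine ⟨I0.image (fun t => ((c, t.1), (c', t.2))), ?_, ?_, ?_⟩
  · intro s hs
    obtain ⟨t, ht, rfl⟩ := Finset.mem_image.1 hs
    obtain ⟨⟨m1, m2⟩, -, -, m3⟩ := hmem t ht
    unfold W2
    rw [Finset.mem_filter, Finset.mem_product, mem_Wn, mem_Wn]
    refine ⟨⟨⟨hc, (mem_good2.1 m1).1⟩, hc', (mem_good2.1 m2).1⟩, fun h => m3 ?_⟩
    exact ((Prod.ext_iff.1 h).2).symm
  · rw [Finset.card_image_of_injective _ hinj]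
    have g1 := Finset.le_card_sdiff B0 (G0 ×ˢ G1)
    have g2 := Finset.le_card_sdiff B1 ((G0 ×ˢ G1) \ B0)
    have g3 := Finset.le_card_sdiff B2 (((G0 ×ˢ G1) \ B0) \ B1)
    rw [← hI0] at g3
    have g4 : (G0 ×ˢ G1).card ≤ I0.card + B0.card + B1.card + B2.card := by omega
    have g5 : 2 ^ T i * 2 ^ T i ≤ 4 ^ e * (G0 ×ˢ G1).card := by
      rw [Finset.card_product]
      calc 2 ^ T i * 2 ^ T i ≤ (2 ^ e * G0.card) * (2 ^ e * G1.card) := Nat.mul_le_mul h0 h1
        _ = 4 ^ e * (G0.card * G1.card) := by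
          have : (4 : ℕ) ^ e = 2 ^ e * 2 ^ e := by rw [← mul_pow]; norm_num
          rw [this]
          ring
    have g6 : (2 : ℕ) ^ (2 * e + 5) = 4 ^ e * 32 := by
      rw [pow_add, pow_mul]
      norm_num
    rw [g6] at b0 b1 b2
    have g7 : 4 ^ T i = 2 ^ T i * 2 ^ T i := by rw [← mul_pow]; norm_num
    rw [g7]
    set N := 2 ^ T i * 2 ^ T i with hN
    have g8 : 4 ^ e * (G0 ×ˢ G1).card ≤ 4 ^ e * (I0.card + B0.card + B1.card + B2.card) :=
      Nat.mul_le_mul_left _ g4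
    nlinarith
  · intro s hs
    obtain ⟨t, ht, rfl⟩ := Finset.mem_image.1 hs
    obtain ⟨⟨m1, m2⟩, n0, n1, -⟩ := hmem t ht
    refine ⟨q, hq, ?_, ?_⟩
    · refine hf 0 (by norm_num) c hc t.1 m1 t.2 (mem_good2.1 m2).1 n0 _ ?_
      rw [plant_union]
      exact off_plant c' _ t.2 _
    · refine hf 1 (by norm_num) c' hc' t.2 m2 t.1 (mem_good2.1 m1).1 n1 _ ?_
      rw [Finset.union_comm, plant_union]
      exact off_plant c _ t.1 _

theorem arith3 {n a e : ℕ} (hn : e + 1 ≤ n) {s x y : ENNReal} (ha : 2 * e + 8 ≤ a)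
    (h : ((4 ^ n / (2 * 4 ^ e) : ℕ) : ENNReal) * s ≤
      2 ^ (2 * (n + a)) * (2 * x + 48 * 2⁻¹ ^ (3 * a) * y)) :
    (2⁻¹ : ENNReal) ^ (2 * a) * s ≤ (4 * 4 ^ e) * x + 2⁻¹ * (2⁻¹ ^ (2 * a) * y) := by
  obtain ⟨k, rfl⟩ : ∃ k, n = k + (e + 1) := ⟨n - (e + 1), by omega⟩
  have e1 : 4 ^ (k + (e + 1)) / (2 * 4 ^ e) = 2 * 4 ^ k := by
    rw [pow_add, pow_succ]
    have : 4 ^ k * (4 ^ e * 4) = (2 * 4 ^ e) * (2 * 4 ^ k) := by ring
    rw [this]
    exact Nat.mul_div_cancel_left _ (by positivity)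
  rw [e1] at h
  have h4 : (4 : ENNReal) ^ k ≠ 0 := pow_ne_zero _ (by norm_num)
  have h4' : (4 : ENNReal) ^ k ≠ ⊤ := ENNReal.pow_ne_top (by norm_num)
  have e2 : (2 : ENNReal) ^ (2 * (k + (e + 1) + a)) = 4 * 4 ^ e * 4 ^ k * 2 ^ (2 * a) := by
    rw [show 2 * (k + (e + 1) + a) = 2 + 2 * e + 2 * k + 2 * a by ring, pow_add, pow_add, pow_add,
      pow_mul 2 2 k, pow_mul 2 2 e]
    norm_num
  have e3 : (2⁻¹ : ENNReal) ^ (2 * a) * 2 ^ (2 * a) = 1 := by
    rw [← mul_pow, ENNReal.inv_mul_cancel (by norm_num) (by norm_num), one_pow]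
  have h1 : (2⁻¹ : ENNReal) ^ (2 * a) * (((2 * 4 ^ k : ℕ) : ENNReal) * s) ≤
      (2⁻¹ : ENNReal) ^ (2 * a) *
        (2 ^ (2 * (k + (e + 1) + a)) * (2 * x + 48 * 2⁻¹ ^ (3 * a) * y)) := by
    gcongr
  rw [e2] at h1
  push_cast at h1
  have h2 : (2 * 4 ^ k) * ((2⁻¹ : ENNReal) ^ (2 * a) * s) ≤
      (2 * 4 ^ k) * ((4 * 4 ^ e) * x + (96 * 4 ^ e) * 2⁻¹ ^ (3 * a) * y) := by
    calc (2 * 4 ^ k) * ((2⁻¹ : ENNReal) ^ (2 * a) * s)
        = (2⁻¹ : ENNReal) ^ (2 * a) * (2 * 4 ^ k * s) := by ring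
      _ ≤ _ := h1
      _ = ((2⁻¹ : ENNReal) ^ (2 * a) * 2 ^ (2 * a)) * (4 * 4 ^ e * 4 ^ k) *
          (2 * x + 48 * 2⁻¹ ^ (3 * a) * y) := by ring
      _ = (2 * 4 ^ k) * ((4 * 4 ^ e) * x + (96 * 4 ^ e) * 2⁻¹ ^ (3 * a) * y) := by rw [e3]; ring
  have h3 := (ENNReal.mul_le_mul_iff_right (mul_ne_zero (by norm_num) h4)
    (ENNReal.mul_ne_top (by norm_num) h4')).1 h2
  refine h3.trans (add_le_add le_rfl ?_)
  have h5 : (96 * 4 ^ e : ENNReal) * 2⁻¹ ^ (3 * a) ≤ 2⁻¹ * 2⁻¹ ^ (2 * a) := by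
    obtain ⟨b, rfl⟩ : ∃ b, a = b + (2 * e + 8) := ⟨a - (2 * e + 8), by omega⟩
    have e4 : (2⁻¹ : ENNReal) ^ (3 * (b + (2 * e + 8))) =
        2⁻¹ ^ (2 * (b + (2 * e + 8))) * (2⁻¹ ^ b * (2⁻¹ ^ (2 * e) * 2⁻¹ ^ 8)) := by
      rw [← pow_add, ← pow_add, ← pow_add]
      congr 1
      ring
    have e5 : (4 : ENNReal) ^ e * 2⁻¹ ^ (2 * e) = 1 := by
      rw [pow_mul, ← mul_pow]
      have : (4 : ENNReal) * 2⁻¹ ^ 2 = 1 := by
        have h44 : (4 : ENNReal) = 2 ^ 2 := by norm_num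
        rw [h44, ← mul_pow, ENNReal.mul_inv_cancel (by norm_num) (by norm_num), one_pow]
      rw [this, one_pow]
    have e6 : (96 : ENNReal) * 2⁻¹ ^ 8 ≤ 2⁻¹ := by
      have h128 : (96 : ENNReal) ≤ 2 ^ 7 := by norm_num
      calc (96 : ENNReal) * 2⁻¹ ^ 8 ≤ 2 ^ 7 * 2⁻¹ ^ 8 := by gcongr
        _ = (2 ^ 7 * 2⁻¹ ^ 7) * 2⁻¹ := by rw [pow_succ 2⁻¹ 7]; ring
        _ = 2⁻¹ := by
          rw [← mul_pow, ENNReal.mul_inv_cancel (by norm_num) (by norm_num), one_pow, one_mul]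
    have e7 : (2⁻¹ : ENNReal) ^ b ≤ 1 := pow_le_one' (by simp) _
    calc (96 * 4 ^ e : ENNReal) * 2⁻¹ ^ (3 * (b + (2 * e + 8)))
        = (96 * 2⁻¹ ^ 8) * (4 ^ e * 2⁻¹ ^ (2 * e)) * 2⁻¹ ^ b *
          2⁻¹ ^ (2 * (b + (2 * e + 8))) := by rw [e4]; ring
      _ ≤ 2⁻¹ * 1 * 1 * 2⁻¹ ^ (2 * (b + (2 * e + 8))) := by rw [e5]; gcongr
      _ = _ := by ring
  calc (96 * 4 ^ e) * 2⁻¹ ^ (3 * a) * y ≤ (2⁻¹ * 2⁻¹ ^ (2 * a)) * y := by gcongr
    _ = 2⁻¹ * (2⁻¹ ^ (2 * a) * y) := by ring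

include E ok in
theorem cap_bound2 {i : ℕ} (hi : i0 ≤ i) (m : ℕ) {R : Set Oracle}
    (hR : Loc {x | x.length ≤ T i} R) :
    (2⁻¹ : ENNReal) ^ (2 * bx e m) * randomOracle (R ∩ Cap2 O M p K e i m) ≤
      (4 * 4 ^ e) * randomOracle (R ∩ Er O M p K i) +
        2⁻¹ * (2⁻¹ ^ (2 * bx e m) * randomOracle R) := by
  classical
  have hEr : MeasurableSet (Er O M p K i) := measurableSet_of_loc (finite_length_le _)
    ((Pool.Agent.J4H98.NPP.t_LOC O E M p K i0 ok.ok).1 i hi)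
  have hRm : MeasurableSet R := measurableSet_of_loc (finite_length_le _) hR
  have h1 := Pool.Agent.J4H98.NPP.t_PL (Cand × Cand) (W2 (T i))
    (fun t => spots (T i + bx e m) t.1 ∪ spots (T i + bx e m) t.2) (2 * (T i + bx e m))
    (4 ^ T i / (2 * 4 ^ e)) (R ∩ Cap2 O M p K e i m) (R ∩ Er O M p K i) (hRm.inter hEr) ?_ ?_
  · refine arith3 (by have := ok.large i hi; omega) (by unfold bx; omega) (h1.trans ?_)
    gcongr
    have h2 := up2 (a := bx e m) hR hEr
    refine le_of_eq_of_le ?_ h2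
    refine Finset.sum_congr rfl fun t _ => ?_
    congr 2
    ext A
    simp only [Set.mem_ofPred_eq]
    rw [← ones_iff, ← ones_iff]
    constructor
    · intro h
      exact ⟨fun x hx => h x (Finset.mem_union_left _ hx),
        fun x hx => h x (Finset.mem_union_right _ hx)⟩
    · rintro ⟨h, h'⟩ x hx
      rcases Finset.mem_union.1 hx with hx | hx
      · exact h x hx
      · exact h' x hx
  · intro t _
    refine (Finset.card_union_le _ _).trans ?_
    have e1 := card_spots_le (T i + bx e m) t.1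
    have e2 := card_spots_le (T i + bx e m) t.2
    omega
  · rintro A ⟨hA, hC⟩
    obtain ⟨I', hI', hc, hp⟩ := plant_Cap2 E ok hi m hC
    refine ⟨I', hI', ?_, fun t ht => ⟨?_, hp t ht⟩⟩
    · exact Nat.div_le_of_le_mul hc
    · have ht' := hI' ht
      unfold W2 at ht'
      rw [Finset.mem_filter, Finset.mem_product, mem_Wn, mem_Wn] at ht'
      refine (plant_mem_iff hR ?_ A).2 hA
      intro x hx
      rcases Finset.mem_union.1 hx with hx | hx
      · exact lt_length_spots ht'.1.1.2 x hx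
      · exact lt_length_spots ht'.1.2.2 x hx

end

end Pool.Agent.J4H25.NPB
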