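import Pool.Agent.J4H25.NPB.Nb

set_option autoImplicit false

/-!
# Procedures with few questions fail
-/

namespace Pool.Agent.J4H25.NPB

open MeasureTheory Filter Pool.Agent.NPC Pool.Agent.H628R3.RO Pool.Agent.J4H63.ESY Pool.Agent.J4H45.OPT
open Pool.Agent.J4H45.EXP (T wds T_strictMono le_T T_pos two_pow_T_le two_pow_T_lt mem_wds card_wds)
open Pool.Agent.J4H25.NPP
open Pool.Agent.J4H98.NPP (mem_congr)
open Pool.Agent.J4H81.NPP (size_le touched hit_plant off_plant)

/-- The procedure `r` with answers from `S` and at most `j` further questions; `a` is the list of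
the answers so far. The output `false :: q` of `r` on input and answers is the question `q`; every
other output ends the procedure, which accepts if the output is `[true]`. -/
def runQ (r : List Bool → List Bool) (S : List Bool → Bool) (x : List Bool) :
    ℕ → List Bool → Bool
  | 0, a => decide (r (pairBits x a) = [true])
  | j + 1, a => if (r (pairBits x a)).head? = some false then
      runQ r S x j (a ++ [S (r (pairBits x a)).tail]) else decide (r (pairBits x a) = [true])

/-- The decision of the procedure is `d`, and all its questions are in `P`. -/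
def RunP (r : List Bool → List Bool) (S : List Bool → Bool) (P : List Bool → Prop)
    (x : List Bool) (d : Bool) : ℕ → List Bool → Prop
  | 0, a => decide (r (pairBits x a) = [true]) = d
  | j + 1, a => if (r (pairBits x a)).head? = some false then
      P (r (pairBits x a)).tail ∧ RunP r S P x d j (a ++ [S (r (pairBits x a)).tail])
      else decide (r (pairBits x a) = [true]) = d

theorem RunP.runQ {r : List Bool → List Bool} {S : List Bool → Bool} {P : List Bool → Prop}
    {x : List Bool} {d : Bool} : ∀ {j : ℕ} {a : List Bool}, RunP r S P x d j a →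
    runQ r S x j a = d := by
  intro j
  induction j with
  | zero => exact fun {a} h => h
  | succ j ih =>
    intro a h
    rw [RunP] at h
    rw [NPB.runQ]
    by_cases h1 : (r (pairBits x a)).head? = some false
    · rw [if_pos h1] at h ⊢
      exact ih h.2
    · rw [if_neg h1] at h ⊢
      exact h

theorem RunP.change {r : List Bool → List Bool} {S S' : List Bool → Bool}
    {P P' : List Bool → Prop} {x : List Bool} {d : Bool} (hP : ∀ q, P q → P' q)
    (hS : ∀ q, P q → S' q = S q) : ∀ {j : ℕ} {a : List Bool}, RunP r S P x d j a →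
    RunP r S' P' x d j a := by
  intro j
  induction j with
  | zero => exact fun {a} h => h
  | succ j ih =>
    intro a h
    rw [RunP] at h ⊢
    by_cases h1 : (r (pairBits x a)).head? = some false
    · rw [if_pos h1] at h ⊢
      refine ⟨hP _ h.1, ?_⟩
      rw [hS _ h.1]
      exact ih h.2
    · rw [if_neg h1] at h ⊢
      exact h

theorem exists_RunP (r : List Bool → List Bool) (S : List Bool → Bool) (x : List Bool) :
    ∀ (j : ℕ) (a : List Bool), ∃ L : ℕ, RunP r S (fun q => q.length ≤ L) x (runQ r S x j a) j a := by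
  intro j
  induction j with
  | zero => exact fun a => ⟨0, rfl⟩
  | succ j ih =>
    intro a
    obtain ⟨L, hL⟩ := ih (a ++ [S (r (pairBits x a)).tail])
    refine ⟨max L (r (pairBits x a)).tail.length, ?_⟩
    rw [RunP, runQ]
    by_cases h1 : (r (pairBits x a)).head? = some false
    · rw [if_pos h1, if_pos h1]
      exact ⟨le_max_right _ _, hL.change (fun q hq => le_trans hq (le_max_left _ _))
        fun _ _ => rfl⟩
    · rw [if_neg h1, if_neg h1]

theorem RunP.congr {r r' : List Bool → List Bool} {S : List Bool → Bool}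
    {P P' : List Bool → Prop} {x : List Bool} {d : Bool} {B : ℕ}
    (hr : ∀ a : List Bool, a.length ≤ B → r' (pairBits x a) = r (pairBits x a))
    (hP : ∀ a : List Bool, a.length ≤ B → P (r (pairBits x a)).tail → P' (r (pairBits x a)).tail) :
    ∀ {j : ℕ} {a : List Bool}, a.length + j ≤ B → RunP r S P x d j a → RunP r' S P' x d j a := by
  intro j
  induction j with
  | zero =>
    intro a ha h
    rw [RunP] at h ⊢
    rw [hr a (by omega)]
    exact h
  | succ j ih =>
    intro a ha h
    rw [RunP] at h ⊢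
    rw [hr a (by omega)]
    by_cases h1 : (r (pairBits x a)).head? = some false
    · rw [if_pos h1] at h ⊢
      refine ⟨hP a (by omega) h.1, ih ?_ h.2⟩
      rw [List.length_append, List.length_singleton]
      omega
    · rw [if_neg h1] at h ⊢
      exact h

section

variable (O : Oracle → Oracle) (M : ℕ → Alg) (p : ℕ → Polynomial ℕ) (K e : ℕ)

/-- the function computed by an algorithm -/
def rF (MF : Alg) (B : Oracle) (y : List Bool) : List Bool := (MF.out B y).getD []

/-- `β` is an allowed answer to the question `q` -/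
def Alw (L : ℕ) (σ : Finset (List Bool)) (A : Oracle) (q : List Bool) (β : Bool) : Prop :=
  (q.length ≤ L → β = decide (q ∈ σ)) ∧
  (L < q.length → (Mem (M 0) (p 0) (O A) q → β = true) ∧ (Mem (M 1) (p 1) (O A) q → β = false))

/-- the procedure fails at stage `i` (if the level is `l`) for suitable answers -/
def FlB (b L : ℕ) (σ : Finset (List Bool)) (MF : Alg) (i l : ℕ) : Set Oracle :=
  {A | ∃ c, c < 2 ∧ A ∈ HevB e c i l ∧ ∃ S : List Bool → Bool,
    RunP (rF MF (O A)) S (fun q => Alw O M p L σ A q (S q)) (List.replicate (T i) false)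
      (decide (c = 1)) b []}

end

section

variable {O : Oracle → Oracle} (E : Emb2 O) {M : ℕ → Alg} {p : ℕ → Polynomial ℕ} {K i0 e : ℕ}
  (ok : Ok2 M p K i0 e)

theorem poly_mono (q : Polynomial ℕ) {a b : ℕ} (h : a ≤ b) : q.eval a ≤ q.eval b := by
  rw [Polynomial.eval_eq_sum, Polynomial.eval_eq_sum]
  exact Finset.sum_le_sum fun i _ => Nat.mul_le_mul_left _ (Nat.pow_le_pow_left h i)

/-- the questions are short -/
theorem size_rF (K b : ℕ) (MF : Alg) : ∃ N, ∀ i ≥ N, ∀ (B : Oracle) (a : List Bool),
    a.length ≤ b →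
    K * (rF MF B (pairBits (List.replicate (T i) false) a)).tail.length.size ≤ T i := by
  obtain ⟨u, hu⟩ := MF.out_length
  obtain ⟨u', hu'⟩ : ∃ u' : Polynomial ℕ, ∀ n a : ℕ, a ≤ b → u.eval (2 * n + 1 + a) ≤ u'.eval n := by
    refine ⟨u.comp (Polynomial.C 2 * Polynomial.X + Polynomial.C (1 + b)), fun n a ha => ?_⟩
    rw [Polynomial.eval_comp]
    refine poly_mono u ?_
    simp only [Polynomial.eval_add, Polynomial.eval_mul, Polynomial.eval_C, Polynomial.eval_X]
    omega
  obtain ⟨N, hN⟩ := size_le u' K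
  refine ⟨N, fun i hi B a ha => hN (T i) (hi.trans (le_T i)) _ ?_⟩
  rw [List.length_tail]
  refine (Nat.sub_le _ _).trans (le_trans ?_ (hu' (T i) a.length ha))
  unfold rF
  rcases ho : MF.out B (pairBits (List.replicate (T i) false) a) with _ | z
  · simp
  · have := hu _ _ _ ho
    rw [length_pairBits_A3, List.length_replicate] at this
    simpa using this

include ok in
theorem loc_HevB {i : ℕ} (hi : i0 ≤ i) {l : ℕ} (hl : l ≤ i) {c : ℕ} (hc : c < 2) :
    Loc {x | x.length ≤ 2 ^ T i} (HevB e c i l) := by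
  intro A A' hA
  have e1 := bx_le e l
  have e2 := le_T i
  have e3 := ok.big i hi
  have key : ∀ w : List Bool, w.length = T i →
      (Hit (T i + bx e l) (c, w) A ↔ Hit (T i + bx e l) (c, w) A') := by
    intro w hw
    refine forall₂_congr fun b hb => ?_
    rw [hA]
    simp only [Set.mem_ofPred_eq]
    rw [length_pos]
    omega
  unfold HevB
  simp only [Set.mem_ofPred_eq]
  exact exists_congr fun w => and_congr_right fun hw => key w hw

include E ok in
theorem loc_FlB (b L : ℕ) (σ : Finset (List Bool)) (MF : Alg) : ∃ i1 ≥ i0, ∀ i ≥ i1, ∀ l ≤ i,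
    Loc {x | x.length ≤ 2 ^ T i} (FlB O M p e b L σ MF i l) := by
  obtain ⟨qb, hq⟩ := MF.out_congr
  obtain ⟨u', hu'⟩ : ∃ u' : Polynomial ℕ, ∀ n a : ℕ, a ≤ b → qb.eval (2 * n + 1 + a) ≤ u'.eval n := by
    refine ⟨qb.comp (Polynomial.C 2 * Polynomial.X + Polynomial.C (1 + b)), fun n a ha => ?_⟩
    rw [Polynomial.eval_comp]
    refine poly_mono qb ?_
    simp only [Polynomial.eval_add, Polynomial.eval_mul, Polynomial.eval_C, Polynomial.eval_X]
    omega
  obtain ⟨N1, h1⟩ := eventually_atTop.1 (H529R3.Lev.poly_le_two_pow u')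
  obtain ⟨N2, h2⟩ := size_rF K b MF
  refine ⟨i0 + N1 + N2, by omega, fun i hi l hl => ?_⟩
  have key : ∀ A A' : Oracle, (∀ x : List Bool, x.length ≤ 2 ^ T i → A x = A' x) →
      A ∈ FlB O M p e b L σ MF i l → A' ∈ FlB O M p e b L σ MF i l := by
    rintro A A' hA ⟨c, hc, hH, S, hS⟩
    refine ⟨c, hc, (loc_HevB ok (by omega) hl hc A A' hA).1 hH, S, ?_⟩
    refine RunP.congr (B := b) ?_ ?_ (by simp) hS
    · intro a ha
      unfold rF
      have h3 := le_T i
      have h4 : u'.eval (T i) ≤ 2 ^ T i := h1 (T i) (by omega)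
      have e1 : MF.out (O A') (pairBits (List.replicate (T i) false) a) =
          MF.out (O A) (pairBits (List.replicate (T i) false) a) := by
        refine hq (O A') (O A) _ (2 * T i + 1 + a.length)
          (by rw [length_pairBits_A3, List.length_replicate]) fun x hx => ?_
        have h5 := hu' (T i) a.length ha
        exact (E.loc x A A' (hA _ ((E.len x).trans (hx.trans (h5.trans h4))))).symm
      rw [e1]
    · intro a ha hP
      have h3 := h2 i (by omega) (O A) a ha
      refine ⟨hP.1, fun hL => ?_⟩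
      have hA' : ∀ x : List Bool, x.length ≤ 2 ^ T i → A x = A' x := hA
      rw [← mem_congr E ok.ok (by omega) h3 (by norm_num : 0 < 2) hA',
        ← mem_congr E ok.ok (by omega) h3 (by norm_num : 1 < 2) hA']
      exact hP.2 hL
  intro A A' hA
  exact ⟨key A A' hA, key A' A fun x hx => (hA x hx).symm⟩

open Classical in
/-- the answers: is the question heavy for the first set? -/
noncomputable def ansH (O : Oracle → Oracle) (M : ℕ → Alg) (p : ℕ → Polynomial ℕ) (e L : ℕ)
    (σ : Finset (List Bool)) (A : Oracle) (n m : ℕ) (q : List Bool) : Bool :=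
  if q.length ≤ L then decide (q ∈ σ) else decide (Hvy O M p e A 0 n m q)

include E in
theorem walk (L : ℕ) (σ : Finset (List Bool)) (MF : Alg) {A : Oracle} {i l b Z : ℕ}
    (hZ : ∀ a : List Bool, a.length ≤ b →
      MF.p.eval (pairBits (List.replicate (T i) false) a).length ≤ Z)
    (hZ2 : 2 ^ T i = 2 ^ e * Z)
    (hsz : ∀ a : List Bool, a.length ≤ b →
      K * (rF MF (O A) (pairBits (List.replicate (T i) false) a)).tail.length.size ≤ T i)
    (hA : A ∉ Cap2 O M p K e i l) :
    ∀ (j : ℕ) (a : List Bool), a.length + j ≤ b → ∃ d : Bool, ∀ c < 2,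
      ∃ S : Finset (List Bool), S.card ≤ (2 * j + 1) * Z ∧
        ∀ w : List Bool, w.length = T i → w ∉ S →
          RunP (rF MF (O (plant (spots (T i + bx e l) (c, w)) A)))
            (ansH O M p e L σ A (T i) (T i + bx e l))
            (fun q => Alw O M p L σ (plant (spots (T i + bx e l) (c, w)) A) q
              (ansH O M p e L σ A (T i) (T i + bx e l) q))
            (List.replicate (T i) false) d j a := by
  classical
  have hlight : ∀ s c q, ¬ Hvy O M p e A s (T i) (T i + bx e l) q → c < 2 →
      (good2 O M p A s c (T i) (T i + bx e l) q).card ≤ Z := by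
    intro s c q hq hc
    by_contra hcon
    refine hq ⟨c, hc, ?_⟩
    rw [hZ2]
    exact Nat.mul_le_mul_left _ (by omega)
  intro j
  induction j with
  | zero =>
    intro a ha
    obtain ⟨S, hS, hf⟩ := touched E.toEmb MF A (pairBits (List.replicate (T i) false) a) (T i)
    refine ⟨decide (rF MF (O A) (pairBits (List.replicate (T i) false) a) = [true]),
      fun c hc => ⟨S, ?_, fun w hw hwS => ?_⟩⟩
    · have := hZ a (by omega)
      omega
    · rw [RunP]
      unfold rF
      rw [hf w hw hwS _ (off_plant c _ w A)]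
  | succ j ih =>
    intro a ha
    obtain ⟨S0, hS0, hf⟩ := touched E.toEmb MF A (pairBits (List.replicate (T i) false) a) (T i)
    have hS0' : S0.card ≤ Z := hS0.trans (hZ a (by omega))
    have hr : ∀ c, ∀ w : List Bool, w.length = T i → w ∉ S0 →
        rF MF (O (plant (spots (T i + bx e l) (c, w)) A))
          (pairBits (List.replicate (T i) false) a) =
        rF MF (O A) (pairBits (List.replicate (T i) false) a) := by
      intro c w hw hwS
      unfold rF
      rw [hf w hw hwS _ (off_plant c _ w A)]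
    by_cases h1 : (rF MF (O A) (pairBits (List.replicate (T i) false) a)).head? = some false
    · set q := (rF MF (O A) (pairBits (List.replicate (T i) false) a)).tail with hq
      obtain ⟨d, hd⟩ := ih (a ++ [ansH O M p e L σ A (T i) (T i + bx e l) q]) (by
        rw [List.length_append, List.length_singleton]
        omega)
      have hsq : K * q.length.size ≤ T i := hsz a (by omega)
      refine ⟨d, fun c hc => ?_⟩
      obtain ⟨S1, hS1, h2⟩ := hd c hc
      -- the words for which the answer is wrong
      obtain ⟨S2, hS2, h3⟩ : ∃ S2 : Finset (List Bool), S2.card ≤ Z ∧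
          ∀ w : List Bool, w.length = T i → w ∉ S2 →
            Alw O M p L σ (plant (spots (T i + bx e l) (c, w)) A) q
              (ansH O M p e L σ A (T i) (T i + bx e l) q) := by
        by_cases hL : q.length ≤ L
        · refine ⟨∅, by simp, fun w _ _ => ⟨fun _ => ?_, fun h => absurd hL (by omega)⟩⟩
          unfold ansH
          rw [if_pos hL]
        · by_cases hv : Hvy O M p e A 0 (T i) (T i + bx e l) q
          · have hv1 : ¬ Hvy O M p e A 1 (T i) (T i + bx e l) q :=
              fun h => hA ⟨q, hsq, hv, h⟩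
            refine ⟨good2 O M p A 1 c (T i) (T i + bx e l) q, hlight 1 c q hv1 hc,
              fun w hw hwS => ⟨fun h => absurd h hL, fun _ => ?_⟩⟩
            have ha1 : ansH O M p e L σ A (T i) (T i + bx e l) q = true := by
              unfold ansH
              rw [if_neg hL, decide_eq_true_eq]
              exact hv
            rw [ha1]
            exact ⟨fun _ => rfl, fun hm => absurd (mem_good2.2 ⟨hw, hm⟩) hwS⟩
          · refine ⟨good2 O M p A 0 c (T i) (T i + bx e l) q, hlight 0 c q hv hc,
              fun w hw hwS => ⟨fun h => absurd h hL, fun _ => ?_⟩⟩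
            have ha1 : ansH O M p e L σ A (T i) (T i + bx e l) q = false := by
              unfold ansH
              rw [if_neg hL, decide_eq_false_iff_not]
              exact hv
            rw [ha1]
            exact ⟨fun hm => absurd (mem_good2.2 ⟨hw, hm⟩) hwS, fun _ => rfl⟩
      refine ⟨S0 ∪ S1 ∪ S2, ?_, fun w hw hwS => ?_⟩
      · have g1 := Finset.card_union_le (S0 ∪ S1) S2
        have g2 := Finset.card_union_le S0 S1
        have g3 : (2 * (j + 1) + 1) * Z = Z + (2 * j + 1) * Z + Z := by ring
        omega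
      · rw [Finset.mem_union, Finset.mem_union, not_or, not_or] at hwS
        rw [RunP, hr c w hw hwS.1.1, if_pos h1]
        exact ⟨h3 w hw hwS.2, h2 w hw hwS.1.2⟩
    · refine ⟨decide (rF MF (O A) (pairBits (List.replicate (T i) false) a) = [true]),
        fun c hc => ⟨S0, ?_, fun w hw hwS => ?_⟩⟩
      · have g3 : (2 * (j + 1) + 1) * Z = Z + (2 * j + 1) * Z + Z := by ring
        omega
      · rw [RunP, hr c w hw hwS, if_neg h1]

include E ok in
theorem plant_FlB (b L : ℕ) (hb : 4 * (2 * b + 1) ≤ 2 ^ e) (σ : Finset (List Bool)) (MF : Alg) :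
    ∃ i1 ≥ i0, ∀ i ≥ i1, ∀ l, ∀ A ∉ Cap2 O M p K e i l,
    ∃ c < 2, ∃ I' ⊆ wds (T i), 2 ^ T i ≤ 4 * I'.card ∧
      ∀ w ∈ I', plant (spots (T i + bx e l) (c, w)) A ∈ FlB O M p e b L σ MF i l := by
  classical
  obtain ⟨N1, h1⟩ := size_rF K b MF
  obtain ⟨u', hu'⟩ : ∃ u' : Polynomial ℕ, ∀ n a : ℕ, a ≤ b →
      2 ^ e * MF.p.eval (2 * n + 1 + a) ≤ u'.eval n := by
    refine ⟨Polynomial.C (2 ^ e) *
      MF.p.comp (Polynomial.C 2 * Polynomial.X + Polynomial.C (1 + b)), fun n a ha => ?_⟩
    rw [Polynomial.eval_mul, Polynomial.eval_C, Polynomial.eval_comp]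
    refine Nat.mul_le_mul_left _ (poly_mono MF.p ?_)
    simp only [Polynomial.eval_add, Polynomial.eval_mul, Polynomial.eval_C, Polynomial.eval_X]
    omega
  obtain ⟨N2, h2⟩ := Filter.eventually_atTop.1 (_root_.H529R3.Lev.poly_le_two_pow u')
  refine ⟨i0 + N1 + N2, by omega, fun i hi l A hA => ?_⟩
  have hTi := le_T i
  have he := ok.large i (by omega)
  have hZ2 : 2 ^ T i = 2 ^ e * 2 ^ (T i - e) := by
    rw [← pow_add]
    congr 1
    omega
  have hZ : ∀ a : List Bool, a.length ≤ b →
      MF.p.eval (pairBits (List.replicate (T i) false) a).length ≤ 2 ^ (T i - e) := by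
    intro a ha
    have g1 := hu' (T i) a.length ha
    have g2 := h2 (T i) (by omega)
    rw [length_pairBits_A3, List.length_replicate]
    have g3 := g1.trans g2
    rw [hZ2] at g3
    exact Nat.le_of_mul_le_mul_left g3 (by positivity)
  obtain ⟨d, hd⟩ := walk (K := K) (b := b) (Z := 2 ^ (T i - e)) E L σ MF (A := A) (i := i) (l := l)
    hZ hZ2 (fun a ha => h1 i (by omega) (O A) a ha) hA b [] (by simp)
  obtain ⟨c, hc, hcd⟩ : ∃ c < 2, decide (c = 1) = d := by
    cases d
    · exact ⟨0, by norm_num, by simp⟩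
    · exact ⟨1, by norm_num, by simp⟩
  obtain ⟨S, hS, hf⟩ := hd c hc
  refine ⟨c, hc, wds (T i) \ S, Finset.sdiff_subset, ?_, fun w hw => ?_⟩
  · have g1 := Finset.le_card_sdiff S (wds (T i))
    rw [card_wds] at g1
    have g2 : 4 * ((2 * b + 1) * 2 ^ (T i - e)) ≤ 2 ^ T i := by
      rw [hZ2, ← mul_assoc]
      exact Nat.mul_le_mul_right _ hb
    omega
  · rw [Finset.mem_sdiff, mem_wds] at hw
    refine ⟨c, hc, ⟨w, hw.1, hit_plant c _ w A⟩,
      ansH O M p e L σ A (T i) (T i + bx e l), ?_⟩
    rw [hcd]
    exact hf w hw.1 hw.2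

include E ok in
theorem fail_boundB (b L : ℕ) (hb : 4 * (2 * b + 1) ≤ 2 ^ e) (σ : Finset (List Bool)) (MF : Alg) :
    ∃ i1 ≥ i0, (∀ i ≥ i1, ∀ l ≤ i,
    Loc {x | x.length ≤ 2 ^ T i} (FlB O M p e b L σ MF i l)) ∧
    ∀ i ≥ i1, ∀ m ≤ i, ∀ R : Set Oracle, Loc {x | x.length ≤ T i} R →
      (2⁻¹ : ENNReal) ^ (bx e m) * randomOracle (R ∩ (Cap2 O M p K e i m)ᶜ) ≤
        4 * randomOracle (R ∩ FlB O M p e b L σ MF i m) +
          16 * 2⁻¹ ^ (2 * bx e m) * randomOracle R := by
  classical
  obtain ⟨i1, hi1, hL⟩ := loc_FlB E ok b L σ MF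
  obtain ⟨i2, hi2, hC⟩ := plant_FlB E ok b L hb σ MF
  refine ⟨max i1 i2, le_trans hi1 (le_max_left _ _),
    fun i hi => hL i (le_trans (le_max_left _ _) hi), ?_⟩
  intro i hi m hm R hR
  have hi' : i1 ≤ i := le_trans (le_max_left _ _) hi
  have hi'' : i2 ≤ i := le_trans (le_max_right _ _) hi
  have hFl : MeasurableSet (FlB O M p e b L σ MF i m) := measurableSet_of_loc (finite_length_le _)
    (hL i hi' m hm)
  have hRm : MeasurableSet R := measurableSet_of_loc (finite_length_le _) hR
  have h1 := Pool.Agent.J4H98.NPP.t_PL (ℕ × List Bool) (Finset.range 2 ×ˢ wds (T i))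
    (fun κ => spots (T i + bx e m) κ) (T i + bx e m)
    (2 ^ T i / 4) (R ∩ (Cap2 O M p K e i m)ᶜ) (R ∩ FlB O M p e b L σ MF i m) (hRm.inter hFl) ?_ ?_
  · refine arith2 (two_le_T ok.ok (hi2.trans hi'')) (h1.trans ?_)
    gcongr
    have h2 := (Pool.Agent.J4H45.NPP.t_UP (T i) (bx e m) R (FlB O M p e b L σ MF i m) hR hFl).1
    rw [Finset.sum_product]
    refine le_of_eq_of_le ?_ h2
    refine Finset.sum_congr rfl fun c _ => Finset.sum_congr rfl fun w _ => ?_
    congr 2
    ext A
    exact ones_iff _ _ _
  · intro κ _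
    exact card_spots_le _ _
  · rintro A ⟨hA, hCp⟩
    obtain ⟨c, hc, I', hI', hcard, hp⟩ := hC i hi'' m A hCp
    refine ⟨I'.image (fun w => (c, w)), ?_, ?_, ?_⟩
    · intro κ hκ
      obtain ⟨w, hw, rfl⟩ := Finset.mem_image.1 hκ
      exact Finset.mem_product.2 ⟨Finset.mem_range.2 hc, hI' hw⟩
    · rw [Finset.card_image_of_injective _ (fun w w' h => (Prod.ext_iff.1 h).2)]
      omega
    · intro κ hκ
      obtain ⟨w, hw, rfl⟩ := Finset.mem_image.1 hκ
      exact ⟨(plant_mem_iff hR (lt_length_spots (mem_wds.1 (hI' hw))) A).2 hA, hp w hw⟩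

end

end Pool.Agent.J4H25.NPB
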