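import Pool.Agent.J4H25.NPB.Eng
import Pool.Agent.J4H25.NPP.Ex

set_option autoImplicit false

/-!
# Levels for arbitrary events, and the summation
-/

namespace Pool.Agent.J4H25.NPB

open MeasureTheory Filter Pool.Agent.NPC Pool.Agent.H628R3.RO Pool.Agent.J4H63.ESY Pool.Agent.J4H45.OPT
open Pool.Agent.J4H45.EXP (T wds T_strictMono le_T T_pos two_pow_T_le two_pow_T_lt mem_wds card_wds)
open Pool.Agent.J4H25.NPP (loc_mono loc_inter two_pow_T_le_T)

section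

variable (Cp : ℕ → ℕ → Set Oracle) (i0 : ℕ)

open Classical in
/-- the levels: go to the next level if the event `Cp i l` does not happen -/
noncomputable def lvG (A : Oracle) : ℕ → ℕ
  | 0 => 0
  | i + 1 => if i < i0 then 0 else lvG A i + (if A ∈ Cp i (lvG A i) then 0 else 1)

theorem lvG_le (A : Oracle) : ∀ i, lvG Cp i0 A i ≤ i := by
  intro i
  induction i with
  | zero => exact le_rfl
  | succ i ih =>
    rw [lvG]
    split_ifs <;> omega

theorem lvG_zero (A : Oracle) {i : ℕ} (hi : i ≤ i0) : lvG Cp i0 A i = 0 := by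
  cases i with
  | zero => rfl
  | succ i => rw [lvG, if_pos (by omega)]

theorem lvG_succ_of {A : Oracle} {i : ℕ} (hi : i0 ≤ i) (h : A ∈ Cp i (lvG Cp i0 A i)) :
    lvG Cp i0 A (i + 1) = lvG Cp i0 A i := by
  rw [lvG, if_neg (by omega), if_pos h, add_zero]

theorem lvG_succ_of_not {A : Oracle} {i : ℕ} (hi : i0 ≤ i) (h : A ∉ Cp i (lvG Cp i0 A i)) :
    lvG Cp i0 A (i + 1) = lvG Cp i0 A i + 1 := by
  rw [lvG, if_neg (by omega), if_neg h]

/-- the event `S l` at the level `l` of the oracle at stage `i` -/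
def AtG (i : ℕ) (S : ℕ → Set Oracle) : Set Oracle := {A | A ∈ S (lvG Cp i0 A i)}

theorem mem_AtG {i : ℕ} {S : ℕ → Set Oracle} {A : Oracle} :
    A ∈ AtG Cp i0 i S ↔ A ∈ S (lvG Cp i0 A i) := by
  unfold AtG
  rw [Set.mem_ofPred_eq]

theorem inter_AtG {i m : ℕ} {S : ℕ → Set Oracle} {R : Set Oracle}
    (hR : ∀ A ∈ R, lvG Cp i0 A i = m) : R ∩ AtG Cp i0 i S = R ∩ S m := by
  ext A
  rw [Set.mem_inter_iff, Set.mem_inter_iff, mem_AtG]
  refine and_congr_right fun hA => ?_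
  rw [hR A hA]

theorem inter_AtG_compl {i m : ℕ} {S : ℕ → Set Oracle} {R : Set Oracle}
    (hR : ∀ A ∈ R, lvG Cp i0 A i = m) : R ∩ (AtG Cp i0 i S)ᶜ = R ∩ (S m)ᶜ := by
  ext A
  rw [Set.mem_inter_iff, Set.mem_inter_iff, Set.mem_compl_iff, Set.mem_compl_iff, mem_AtG]
  refine and_congr_right fun hA => ?_
  rw [hR A hA]

end

theorem le_two_pow_T (i : ℕ) : T i ≤ 2 ^ T i := Nat.lt_two_pow_self.le

section

variable {Cp : ℕ → ℕ → Set Oracle} {i0 : ℕ}
  (hCp : ∀ i ≥ i0, ∀ l, Loc {x | x.length ≤ 2 ^ T i} (Cp i l))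

include hCp

theorem lvG_congr {A A' : Oracle} : ∀ {i : ℕ},
    (∀ x : List Bool, x.length ≤ T i → A x = A' x) → lvG Cp i0 A i = lvG Cp i0 A' i := by
  intro i
  induction i with
  | zero => intro _; rfl
  | succ i ih =>
    intro hA
    have h1 := two_pow_T_lt i
    have h0 : T i < 2 ^ T i := Nat.lt_two_pow_self
    rw [lvG, lvG, ih fun x hx => hA x (by omega)]
    by_cases hi : i < i0
    · rw [if_pos hi, if_pos hi]
    · rw [if_neg hi, if_neg hi]
      have h2 : A ∈ Cp i (lvG Cp i0 A' i) ↔ A' ∈ Cp i (lvG Cp i0 A' i) :=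
        hCp i (by omega) _ A A' fun x hx => hA x (by
          simp only [Set.mem_ofPred_eq] at hx
          omega)
      by_cases h3 : A' ∈ Cp i (lvG Cp i0 A' i)
      · rw [if_pos h3, if_pos (h2.2 h3)]
      · rw [if_neg h3, if_neg (fun h => h3 (h2.1 h))]

theorem loc_lvG (i l : ℕ) : Loc {x | x.length ≤ T i} {A | lvG Cp i0 A i = l} := by
  intro A A' hA
  simp only [Set.mem_ofPred_eq]
  rw [lvG_congr hCp fun x hx => hA x hx]

theorem loc_AtG {i : ℕ} {S : ℕ → Set Oracle}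
    (hS : ∀ l ≤ i, Loc {x | x.length ≤ 2 ^ T i} (S l)) :
    Loc {x | x.length ≤ 2 ^ T i} (AtG Cp i0 i S) := by
  intro A A' hA
  have h1 := le_two_pow_T i
  have h2 : lvG Cp i0 A i = lvG Cp i0 A' i := lvG_congr hCp fun x hx => hA x (by
    simp only [Set.mem_ofPred_eq]
    omega)
  rw [mem_AtG, mem_AtG, h2]
  exact hS _ (lvG_le Cp i0 A' i) A A' hA

theorem meas_AtG {i : ℕ} {S : ℕ → Set Oracle}
    (hS : ∀ l ≤ i, Loc {x | x.length ≤ 2 ^ T i} (S l)) : MeasurableSet (AtG Cp i0 i S) :=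
  measurableSet_of_loc (finite_length_le (2 ^ T i)) (loc_AtG hCp hS)

omit hCp in
theorem loc_noEr {Er : ℕ → Set Oracle}
    (hEr : ∀ i ≥ i0, Loc {x | x.length ≤ 2 ^ T i} (Er i)) (k : ℕ) :
    Loc {x | x.length ≤ T (i0 + k)} {A | ∀ j < k, A ∉ Er (i0 + j)} := by
  intro A A' hA
  refine forall₂_congr fun j hj => not_congr ?_
  refine hEr (i0 + j) (by omega) A A' fun x hx => hA x ?_
  have h3 := two_pow_T_le_T (i := i0 + k) (j := i0 + j) (by omega)
  simp only [Set.mem_ofPred_eq] at hx ⊢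
  omega

/-- the summation for given events -/
theorem key_gen {a : ℕ → ℕ} (s1 : ∑' m, (2⁻¹ : ENNReal) ^ (2 * a m) ≠ ⊤)
    (s2 : ∑' m, (2⁻¹ : ENNReal) ^ (a m) = ⊤) {κ : ENNReal} (hκ : κ ≠ ⊤) {Er : ℕ → Set Oracle}
    (hEr : ∀ i ≥ i0, Loc {x | x.length ≤ 2 ^ T i} (Er i))
    (hcap : ∀ i ≥ i0, ∀ m, ∀ R : Set Oracle, Loc {x | x.length ≤ T i} R →
      (2⁻¹ : ENNReal) ^ (2 * a m) * randomOracle (R ∩ Cp i m) ≤
        κ * randomOracle (R ∩ Er i) + 2⁻¹ * (2⁻¹ ^ (2 * a m) * randomOracle R))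
    {Bt : ℕ → ℕ → Set Oracle}
    (hBt : ∀ i ≥ i0, ∀ l ≤ i, Loc {x | x.length ≤ 2 ^ T i} (Bt i l))
    (hbt : ∀ i ≥ i0, ∀ m, ∀ R : Set Oracle, Loc {x | x.length ≤ T i} R →
      randomOracle (R ∩ Bt i m) ≤ 2⁻¹ ^ (2 * a m) * randomOracle R)
    {Fs : ℕ → ℕ → Set Oracle} {i1 : ℕ} (hi1 : i0 ≤ i1)
    (hFs : ∀ i ≥ i1, ∀ l ≤ i, Loc {x | x.length ≤ 2 ^ T i} (Fs i l))
    (hfs : ∀ i ≥ i1, ∀ m ≤ i, ∀ R : Set Oracle, Loc {x | x.length ≤ T i} R →
      (2⁻¹ : ENNReal) ^ (a m) * randomOracle (R ∩ (Cp i m)ᶜ) ≤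
        4 * randomOracle (R ∩ Fs i m) + 16 * 2⁻¹ ^ (2 * a m) * randomOracle R) (N : ℕ) :
    ∀ᵐ A ∂randomOracle, (∀ k, A ∉ Er (i0 + k)) →
      (∀ᶠ k in atTop, A ∉ AtG Cp i0 (i0 + k) (fun l => Bt (i0 + k) l)) ∧
      ∃ k ≥ N, A ∈ AtG Cp i0 (i0 + k) (fun l => Fs (i0 + k) l) := by
  have hFll : ∀ k ≥ i1 + N, Loc {x | x.length ≤ 2 ^ T (i0 + k)}
      (AtG Cp i0 (i0 + k) (fun l => Fs (i0 + k) l)) :=
    fun k hk => loc_AtG hCp fun l hl => hFs _ (by omega) l hl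
  have key := eng (μ := randomOracle) a κ hκ
    (fun k A => lvG Cp i0 A (i0 + k)) (fun k => Er (i0 + k))
    (fun k => AtG Cp i0 (i0 + k) (fun l => Bt (i0 + k) l))
    (fun k => AtG Cp i0 (i0 + k) (fun l => Cp (i0 + k) l))
    (fun k m => measurableSet_of_loc (finite_length_le (T (i0 + k))) (loc_lvG hCp (i0 + k) m))
    (fun k => measurableSet_of_loc (finite_length_le (2 ^ T (i0 + k))) (hEr _ (by omega)))
    (fun k => meas_AtG hCp fun l hl => hBt _ (by omega) l hl)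
    (fun k => meas_AtG hCp fun l _ => hCp _ (by omega) l)
    (fun A => lvG_zero Cp i0 A (by omega))
    (fun k A hA => by
      have h := (mem_AtG Cp i0).1 hA
      rw [← add_assoc]
      exact lvG_succ_of Cp i0 (by omega) h)
    (fun k A hA => by
      have h : A ∉ Cp (i0 + k) (lvG Cp i0 A (i0 + k)) := fun h' => hA ((mem_AtG Cp i0).2 h')
      rw [← add_assoc]
      exact lvG_succ_of_not Cp i0 (by omega) h)
    s1 s2 ?_ ?_
  · obtain ⟨k1, k2⟩ := key
    have h3 := k2 (fun k => AtG Cp i0 (i0 + k) (fun l => Fs (i0 + k) l)) (i1 + N)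
      (fun k hk => measurableSet_of_loc (finite_length_le (2 ^ T (i0 + k))) (hFll k hk)) ?_
    · filter_upwards [k1, h3] with A hA hA' hE
      obtain ⟨k, hk, h4⟩ := hA' hE
      exact ⟨hA hE, k, by omega, h4⟩
    · intro k hk m
      have hR : ∀ A ∈ {A | ∀ j < k, A ∉ Er (i0 + j)} ∩
          {A | ∀ j < k, i1 + N ≤ j → A ∉ AtG Cp i0 (i0 + j) (fun l => Fs (i0 + j) l)} ∩
          {A | lvG Cp i0 A (i0 + k) = m}, lvG Cp i0 A (i0 + k) = m := fun A hA => hA.2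
      by_cases hm : m ≤ i0 + k
      · have hG : Loc {x | x.length ≤ T (i0 + k)}
            {A | ∀ j < k, i1 + N ≤ j → A ∉ AtG Cp i0 (i0 + j) (fun l => Fs (i0 + j) l)} := by
          intro A A' hA
          refine forall₃_congr fun j hj hj' => not_congr ?_
          refine hFll j hj' A A' fun x hx => hA x ?_
          have h3 := two_pow_T_le_T (i := i0 + k) (j := i0 + j) (by omega)
          simp only [Set.mem_ofPred_eq] at hx ⊢
          omega
        have h4 := hfs (i0 + k) (by omega) m hm _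
          (loc_inter (loc_inter (loc_noEr hEr k) hG) (loc_lvG hCp (i0 + k) m))
        rw [inter_AtG_compl Cp i0 hR, inter_AtG Cp i0 hR]
        exact h4
      · have e : {A | ∀ j < k, A ∉ Er (i0 + j)} ∩
          {A | ∀ j < k, i1 + N ≤ j → A ∉ AtG Cp i0 (i0 + j) (fun l => Fs (i0 + j) l)} ∩
          {A | lvG Cp i0 A (i0 + k) = m} = ∅ := by
          rw [Set.eq_empty_iff_forall_notMem]
          intro A hA
          have h5 := hR A hA
          have := lvG_le Cp i0 A (i0 + k)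
          omega
        rw [e]
        simp
  · intro k m
    have hR : ∀ A ∈ {A | ∀ j < k, A ∉ Er (i0 + j)} ∩ {A | lvG Cp i0 A (i0 + k) = m},
        lvG Cp i0 A (i0 + k) = m := fun A hA => hA.2
    have h1 := hcap (i0 + k) (by omega) m _
      (loc_inter (loc_noEr hEr k) (loc_lvG hCp (i0 + k) m))
    rw [inter_AtG Cp i0 hR]
    exact h1
  · intro k m
    have hR : ∀ A ∈ {A | ∀ j < k, A ∉ Er (i0 + j)} ∩ {A | lvG Cp i0 A (i0 + k) = m},
        lvG Cp i0 A (i0 + k) = m := fun A hA => hA.2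
    have h1 := hbt (i0 + k) (by omega) m _
      (loc_inter (loc_noEr hEr k) (loc_lvG hCp (i0 + k) m))
    rw [inter_AtG Cp i0 hR]
    exact h1

end

end Pool.Agent.J4H25.NPB
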