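import Pool.Agent.J4H25.NPB.Cap
import Pool.Agent.J4H25.NPB.Gen

set_option autoImplicit false

/-!
# The new sets are in `UP`
-/

namespace Pool.Agent.J4H25.NPB

open MeasureTheory Filter Pool.Agent.NPC Pool.Agent.H628R3.RO Pool.Agent.J4H63.ESY Pool.Agent.J4H45.OPT
open Pool.Agent.J4H45.EXP (T wds selL selL_map lg_T T_strictMono le_T T_pos two_pow_T_le two_pow_T_lt
  mem_wds card_wds length_lt_two_pow ofL_filter' p_selL lg_iterate_le u_lgI two_pow_lg_le p_strs_lg
  u_min foldl_le ix_le)
open Pool.Agent.J4H25.NPP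
open Pool.Agent.J4H45.NPP (ev measure_ev)

section

variable (g : List Bool → List Bool) (M : ℕ → Alg) (p : ℕ → Polynomial ℕ) (K e i0 : ℕ)

/-- the words whose planting (copy `c`) puts `q` into the set number `s` -/
def goodL2 (s c m n : ℕ) (S : List (List Bool)) (N : ℕ) (q : List Bool) : List (List Bool) :=
  (strsEq (min n (lg N))).filter (fun w => memL (M s) (p s) ((asks m c w).map g ++ S) N q)

/-- Is `q` heavy for the set number `s`? -/
def hvyL (s m n : ℕ) (S : List (List Bool)) (N : ℕ) (q : List Bool) : Bool :=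
  decide ((strsEq (min n (lg N))).length ≤ 2 ^ e * (goodL2 g M p s 0 m n S N q).length) ||
  decide ((strsEq (min n (lg N))).length ≤ 2 ^ e * (goodL2 g M p s 1 m n S N q).length)

/-- Is the stage captured? -/
def capL2 (S : List (List Bool)) (N n l : ℕ) : Bool :=
  (strs (lg N)).any (fun q => decide (K * q.length.size ≤ n) &&
    (hvyL g M p e 0 (min (n + bx e l) N) n S N q && hvyL g M p e 1 (min (n + bx e l) N) n S N q))

/-- the level at stage `i`, for an oracle given by a list -/
def levL2 (S : List (List Bool)) (N i : ℕ) : ℕ :=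
  (List.range (i - i0)).foldl
    (fun l k => l + (if capL2 g M p K e S N (lg^[2 * ((i - i0) - k)] N) l = true then 0 else 1)) 0

end

section

variable {O : Oracle → Oracle} (E : Emb2 O) {M : ℕ → Alg} {p : ℕ → Polynomial ℕ} {K i0 e : ℕ}
  (ok : Ok2 M p K i0 e)

include ok in
theorem hvyL_iff {A : Oracle} {i j : ℕ} (hj : i0 ≤ j) (hji : j < i) {S : List (List Bool)}
    (hS : ∀ x : List Bool, x.length ≤ lg (T i) → ofL S x = O A x) {s : ℕ} (hs : s < 2)
    {q : List Bool} (hq : K * q.length.size ≤ T j) (m : ℕ) :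
    hvyL E.g M p e s m (T j) S (T i) q = true ↔ Hvy O M p e A s (T j) m q := by
  classical
  have h0 : min (T j) (lg (T i)) = T j := by
    refine min_eq_left ?_
    exact (Nat.lt_two_pow_self).le.trans (two_pow_T_le hji)
  have h1 : ∀ c, (goodL2 E.g M p s c m (T j) S (T i) q).length =
      (good2 O M p A s c (T j) m q).card := by
    intro c
    have h1 : (goodL2 E.g M p s c m (T j) S (T i) q).toFinset = good2 O M p A s c (T j) m q := by
      ext w
      unfold goodL2 good2
      rw [h0, List.mem_toFinset, List.mem_filter, Finset.mem_filter, mem_wds, mem_strsEq]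
      refine and_congr_right fun hw => ?_
      exact memL_iff ok.ok hj hji (fun x hx => ofL_plant E hS x hx) hs hq
    rw [← h1, List.toFinset_card_of_nodup]
    exact (nodup_strsEq _).filter _
  unfold hvyL Hvy
  rw [Bool.or_eq_true, decide_eq_true_eq, decide_eq_true_eq, h1, h1, h0, length_strsEq]
  constructor
  · rintro (h | h)
    · exact ⟨0, by norm_num, h⟩
    · exact ⟨1, by norm_num, h⟩
  · rintro ⟨c, hc, h⟩
    interval_cases c
    · exact Or.inl h
    · exact Or.inr h

include ok in
theorem le_of_lt {i j l : ℕ} (hj : i0 ≤ j) (hji : j < i) (hl : l ≤ j) :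
    T j + bx e l ≤ T i := by
  have h1 := two_pow_T_le hji
  have e1 := bx_le e l
  have e2 := le_T j
  have e3 := ok.big j hj
  have e4 := lg_le (T i)
  omega

include ok in
theorem capL2_iff {A : Oracle} {i j l : ℕ} (hj : i0 ≤ j) (hji : j < i) (hl : l ≤ j)
    {S : List (List Bool)} (hS : ∀ x : List Bool, x.length ≤ lg (T i) → ofL S x = O A x) :
    capL2 E.g M p K e S (T i) (T j) l = true ↔ A ∈ Cap2 O M p K e j l := by
  have h1 := two_pow_T_le hji
  have hm : min (T j + bx e l) (T i) = T j + bx e l := min_eq_left (le_of_lt ok hj hji hl)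
  unfold capL2
  rw [hm, List.any_eq_true]
  constructor
  · rintro ⟨q, -, hq⟩
    rw [Bool.and_eq_true, Bool.and_eq_true, decide_eq_true_eq] at hq
    obtain ⟨hq1, hq2, hq3⟩ := hq
    exact ⟨q, hq1, (hvyL_iff E ok hj hji hS (by norm_num) hq1 _).1 hq2,
      (hvyL_iff E ok hj hji hS (by norm_num) hq1 _).1 hq3⟩
  · rintro ⟨q, hq1, hq2, hq3⟩
    refine ⟨q, mem_strs.2 ((length_lt_two_pow ok.ok.pos hq1).le.trans h1), ?_⟩
    rw [Bool.and_eq_true, Bool.and_eq_true, decide_eq_true_eq]
    exact ⟨hq1, (hvyL_iff E ok hj hji hS (by norm_num) hq1 _).2 hq2,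
      (hvyL_iff E ok hj hji hS (by norm_num) hq1 _).2 hq3⟩

include ok in
theorem levL2_eq {A : Oracle} {i : ℕ} (hi : i0 ≤ i) {S : List (List Bool)}
    (hS : ∀ x : List Bool, x.length ≤ lg (T i) → ofL S x = O A x) :
    levL2 E.g M p K e i0 S (T i) i = lvG (Cap2 O M p K e) i0 A i := by
  have key : ∀ k ≤ i - i0, (List.range k).foldl
      (fun l k => l + (if capL2 E.g M p K e S (T i) (lg^[2 * ((i - i0) - k)] (T i)) l = true
        then 0 else 1)) 0 = lvG (Cap2 O M p K e) i0 A (i0 + k) := by
    intro k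
    induction k with
    | zero =>
      intro _
      rw [lvG_zero _ _ A (by omega)]
      rfl
    | succ k ih =>
      intro hk
      rw [List.range_succ, List.foldl_append, ih (by omega)]
      simp only [List.foldl_cons, List.foldl_nil]
      have h1 : lg^[2 * ((i - i0) - k)] (T i) = T (i0 + k) := by
        have h2 := lg_T (i0 + k) ((i - i0) - k)
        have h3 : i0 + k + ((i - i0) - k) = i := by omega
        rwa [h3] at h2
      rw [h1]
      have h4 := capL2_iff E ok (A := A) (i := i) (j := i0 + k)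
        (l := lvG (Cap2 O M p K e) i0 A (i0 + k))
        (by omega) (by omega) (lvG_le _ _ A _) hS
      by_cases h5 : A ∈ Cap2 O M p K e (i0 + k) (lvG (Cap2 O M p K e) i0 A (i0 + k))
      · rw [if_pos (h4.2 h5), ← add_assoc, lvG_succ_of _ _ (by omega) h5]
        rfl
      · rw [if_neg (fun h => h5 (h4.1 h)), ← add_assoc, lvG_succ_of_not _ _ (by omega) h5]
  unfold levL2
  rw [key _ le_rfl]
  congr 1
  omega

end

/-! ### Polynomial time -/

section

variable {α : Type} [TEnc α]

theorem u_bx (e : ℕ) {m : α → ℕ} (hm : Poly m) : UPoly (fun a => bx e (m a)) :=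
  UPoly.add (u_ax hm) (UPoly.const (2 * e + 8))

theorem p_goodL2 {g : List Bool → List Bool} (hg : Poly g) (M : ℕ → Alg) (p : ℕ → Polynomial ℕ)
    (s c : ℕ) {S : α → List (List Bool)} {m n N : α → ℕ} {q : α → List Bool} (hS : Poly S)
    (hm : UPoly m) (hn : Poly n) (hN : UPoly N) (hq : Poly q) :
    Poly (fun a => goodL2 g M p s c (m a) (n a) (S a) (N a) (q a)) := by
  have h1 : Poly (fun p : α × List Bool => p.1) := Poly.fst Poly.id
  have h2 : Poly (fun p : α × List Bool => p.2) := Poly.snd Poly.id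
  refine NPC.Poly.filter (p := fun a w => memL (M s) (p s) ((asks (m a) c w).map g ++ S a) (N a)
    (q a)) (p_strsEq' hn hN) ?_
  refine p_memL (M s) (p s) (Poly.append ?_ (hS.comp h1)) (hN.comp h1) (hq.comp h1)
  exact NPC.Poly.map (F := fun _ x => g x) (p_asks (hm.comp h1) (UPoly.const c) h2)
    (hg.comp (Poly.snd Poly.id))

theorem p_or {u v : α → Bool} (hu : Poly u) (hv : Poly v) : Poly (fun a => u a || v a) := by
  have h : Poly (fun a => if u a = true then true else v a) :=
    Poly.ite (Poly.decide_bool hu) (NPC.Poly.const true) hv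
  refine h.congr fun a => ?_
  cases u a <;> simp

theorem p_capL2 {g : List Bool → List Bool} (hg : Poly g) (M : ℕ → Alg) (p : ℕ → Polynomial ℕ)
    (K e : ℕ) {S : α → List (List Bool)} {N n l : α → ℕ} (hS : Poly S) (hN : UPoly N) (hn : Poly n)
    (hl : Poly l) : Poly (fun a => capL2 g M p K e (S a) (N a) (n a) (l a)) := by
  have h1 : Poly (fun p : α × List Bool => p.1) := Poly.fst Poly.id
  have h2 : Poly (fun p : α × List Bool => p.2) := Poly.snd Poly.id
  have hm : UPoly (fun a => min (n a + bx e (l a)) (N a)) :=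
    u_min (Poly.add hn (u_bx e hl).toPoly) hN
  have hL : Poly (fun p : α × List Bool => (strsEq (min (n p.1) (lg (N p.1)))).length) :=
    (Poly.length (p_strsEq' hn hN)).comp h1
  have hG : ∀ s c, Poly (fun r : α × List Bool =>
      decide ((strsEq (min (n r.1) (lg (N r.1)))).length ≤
        2 ^ e * (goodL2 g M p s c (min (n r.1 + bx e (l r.1)) (N r.1)) (n r.1) (S r.1)
          (N r.1) r.2).length)) := by
    intro s c
    exact Poly.decide_le hL (Poly.mul (NPC.Poly.const (2 ^ e)) (Poly.length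
      (p_goodL2 hg M p s c (hS.comp h1) (hm.comp h1) (hn.comp h1) (hN.comp h1) h2)))
  refine NPC.Poly.any (p := fun a q => decide (K * q.length.size ≤ n a) &&
    (hvyL g M p e 0 (min (n a + bx e (l a)) (N a)) (n a) (S a) (N a) q &&
     hvyL g M p e 1 (min (n a + bx e (l a)) (N a)) (n a) (S a) (N a) q))
    (p_strs_lg hN) (Poly.and ?_ (Poly.and (p_or (hG 0 0) (hG 0 1)) (p_or (hG 1 0) (hG 1 1))))
  exact Poly.decide_le (Poly.mul (NPC.Poly.const K) (u_size (Poly.length h2)).toPoly)
    (hn.comp h1)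

theorem p_levL2 {g : List Bool → List Bool} (hg : Poly g) (M : ℕ → Alg) (p : ℕ → Polynomial ℕ)
    (K e i0 : ℕ) {S : α → List (List Bool)} {N i : α → ℕ} (hS : Poly S) (hN : UPoly N)
    (hi : UPoly i) : Poly (fun a => levL2 g M p K e i0 (S a) (N a) (i a)) := by
  have hd : UPoly (fun a => i a - i0) :=
    UPoly.of_le (Poly.sub hi.toPoly (NPC.Poly.const i0)) hi fun _ => Nat.sub_le _ _
  obtain ⟨r, hr⟩ := uPoly_le hd
  refine NPC.Poly.foldl (l := fun a => List.range (i a - i0)) (s := fun _ => (0 : ℕ))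
    (F := fun (a : α) (l k : ℕ) =>
      l + (if capL2 g M p K e (S a) (N a) (lg^[2 * ((i a - i0) - k)] (N a)) l = true then 0 else 1))
    hd.range (NPC.Poly.const 0) ?_ (Polynomial.C 4 * r + Polynomial.C 1) ?_
  · have h1 : Poly (fun p : α × ℕ × ℕ => p.1) := Poly.fst Poly.id
    have h2 : Poly (fun p : α × ℕ × ℕ => p.2.1) := Poly.fst (Poly.snd Poly.id)
    have h3 : Poly (fun p : α × ℕ × ℕ => p.2.2) := Poly.snd (Poly.snd Poly.id)
    have h4 : UPoly (fun p : α × ℕ × ℕ => (i p.1 - i0) - p.2.2) :=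
      UPoly.of_le (Poly.sub (hd.toPoly.comp h1) h3) (hd.comp h1) fun _ => Nat.sub_le _ _
    have h5 : UPoly (fun p : α × ℕ × ℕ => 2 * ((i p.1 - i0) - p.2.2)) :=
      UPoly.mul (UPoly.const 2) h4
    have h6 : UPoly (fun p : α × ℕ × ℕ => lg^[2 * ((i p.1 - i0) - p.2.2)] (N p.1)) :=
      u_lgI (hN.comp h1) h5
    have h7 : Poly (fun r : α × ℕ × ℕ => capL2 g M p K e (S r.1) (N r.1)
        (lg^[2 * ((i r.1 - i0) - r.2.2)] (N r.1)) r.2.1) :=
      p_capL2 hg M p K e (hS.comp h1) (hN.comp h1) h6.toPoly h2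
    exact Poly.add h2 (Poly.ite (Poly.decide_bool h7) (NPC.Poly.const 0) (NPC.Poly.const 1))
  · intro a k _
    have h1 := foldl_le (fun l k => capL2 g M p K e (S a) (N a)
      (lg^[2 * ((i a - i0) - k)] (N a)) l) ((List.range (i a - i0)).take k) 0
    have h2 : ((List.range (i a - i0)).take k).length ≤ i a - i0 := by
      rw [List.length_take, List.length_range]
      exact min_le_right _ _
    have h3 := hr a
    set v := ((List.range (i a - i0)).take k).foldl (fun l k =>
      l + (if capL2 g M p K e (S a) (N a) (lg^[2 * ((i a - i0) - k)] (N a)) l = true then 0 else 1)) 0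
      with hv
    have h4 := sz_nat_le v
    have h5 := Poly.size_le_self v
    simp only [Polynomial.eval_add, Polynomial.eval_mul, Polynomial.eval_C]
    omega

end

/-! ### The verifier -/

section

variable (g : List Bool → List Bool) (M : ℕ → Alg) (p : ℕ → Polynomial ℕ) (K e i0 i1 c : ℕ)

/-- the questions -/
def askN2 (g : List Bool → List Bool) (e c : ℕ) (y : List Bool × List Bool) : List (List Bool) :=
  strs (lg y.1.length) ++ (asks (2 * y.1.length + (2 * e + 16)) c y.2).map g

/-- the decision, given the answers -/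
def decN2 (x w ans : List Bool) : Bool :=
  decide (x = List.replicate x.length false) && (decide (w.length = x.length) &&
    (decide (ix x.length = 2 * (ix x.length / 2) + 1) && (decide (i1 ≤ ix x.length / 2) &&
      ((ans.drop (strs (lg x.length)).length).take (x.length +
        bx e (levL2 g M p K e i0 (selL (strs (lg x.length)) (ans.take (strs (lg x.length)).length))
          x.length (ix x.length / 2)))).all id)))

theorem p_askN2 {g : List Bool → List Bool} (hg : Poly g) : Poly (askN2 g e c) := by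
  have h1 : Poly (fun y : List Bool × List Bool => y.1) := Poly.fst Poly.id
  have h2 : Poly (fun y : List Bool × List Bool => y.2) := Poly.snd Poly.id
  refine Poly.append (p_strs_lg (UPoly.length h1)) ?_
  exact NPC.Poly.map (F := fun _ x => g x) (p_asks (UPoly.add (UPoly.mul (UPoly.const 2)
    (UPoly.length h1)) (UPoly.const (2 * e + 16))) (UPoly.const c) h2) (hg.comp (Poly.snd Poly.id))

theorem p_decN2 {g : List Bool → List Bool} (hg : Poly g) :
    Poly (fun z : (List Bool × List Bool) × List Bool => decN2 g M p K e i0 i1 z.1.1 z.1.2 z.2) := by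
  have hx : Poly (fun z : (List Bool × List Bool) × List Bool => z.1.1) :=
    Poly.fst (Poly.fst Poly.id)
  have hw : Poly (fun z : (List Bool × List Bool) × List Bool => z.1.2) :=
    Poly.snd (Poly.fst Poly.id)
  have ha : Poly (fun z : (List Bool × List Bool) × List Bool => z.2) := Poly.snd Poly.id
  have hn := UPoly.length hx
  have hs := p_strs_lg hn
  have h3 : UPoly (fun z : (List Bool × List Bool) × List Bool => ix z.1.1.length) :=
    UPoly.of_le (p_ix hn) hn fun _ => ix_le _
  have h4 : UPoly (fun z : (List Bool × List Bool) × List Bool => ix z.1.1.length / 2) :=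
    UPoly.of_le (Poly.div h3.toPoly (NPC.Poly.const 2)) h3 fun _ => Nat.div_le_self _ _
  have h5 := p_levL2 hg M p K e i0 (p_selL hs (p_take' ha (UPoly.length hs))) hn h4
  refine Poly.and (Poly.decide_eq hx (p_replicate hn)) (Poly.and
    (Poly.decide_eq (Poly.length hw) (Poly.length hx)) (Poly.and
    (Poly.decide_eq h3.toPoly (Poly.succ (Poly.mul (NPC.Poly.const 2) h4.toPoly)))
    (Poly.and (Poly.decide_le (NPC.Poly.const i1) h4.toPoly) ?_)))
  exact p_all_id (p_take' (p_drop ha (UPoly.length hs)) (UPoly.add hn (u_bx e h5)))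

end

/-! ### Hits -/

/-- there is a hit of copy `c` at stage `i`, level `l` -/
def HevB (e c i l : ℕ) : Set Oracle :=
  {A | ∃ w : List Bool, w.length = T i ∧ Hit (T i + bx e l) (c, w) A}

/-- the new sets: `LgB 0 = X`, `LgB 1 = Y` -/
def LgB (O : Oracle → Oracle) (M : ℕ → Alg) (p : ℕ → Polynomial ℕ) (K e i0 i1 : ℕ) (A : Oracle)
    (c : ℕ) : Set (List Bool) :=
  {x | ∃ i, i1 ≤ i ∧ x = List.replicate (T i) false ∧
    A ∈ HevB e c i (lvG (Cap2 O M p K e) i0 A i)}

/-- two different candidates (of the copies `c`, `c'`) are hits at stage `i`, level `l` -/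
def TwB (e c c' i l : ℕ) : Set Oracle :=
  {A | ∃ w w' : List Bool, w.length = T i ∧ w'.length = T i ∧ (c, w) ≠ (c', w') ∧
    Hit (T i + bx e l) (c, w) A ∧ Hit (T i + bx e l) (c', w') A}

/-- two different hits are rare -/
theorem two_boundB (e c c' i m : ℕ) {R : Set Oracle} (hR : Loc {x | x.length ≤ T i} R) :
    randomOracle (R ∩ TwB e c c' i m) ≤ 2⁻¹ ^ (2 * bx e m) * randomOracle R := by
  classical
  set n := T i with hn
  set a := bx e m with ha
  set I : Finset (List Bool × List Bool) :=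
    ((wds n) ×ˢ (wds n)).filter (fun t => (c, t.1) ≠ (c', t.2)) with hI
  have hsub : R ∩ TwB e c c' i m ⊆ ⋃ t ∈ I, (R ∩ ev (n + a) {(c, t.1), (c', t.2)}) := by
    rintro A ⟨hA, w, w', hw, hw', hne, h1, h2⟩
    rw [Set.mem_iUnion₂]
    refine ⟨(w, w'), Finset.mem_filter.2 ⟨Finset.mem_product.2 ⟨mem_wds.2 hw, mem_wds.2 hw'⟩,
      hne⟩, hA, ?_⟩
    intro κ hκ
    rw [Finset.mem_insert, Finset.mem_singleton] at hκ
    rcases hκ with rfl | rfl
    · exact h1
    · exact h2
  refine (measure_mono hsub).trans ((measure_biUnion_finset_le _ _).trans ?_)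
  have h1 : ∀ t ∈ I, randomOracle (R ∩ ev (n + a) {(c, t.1), (c', t.2)}) =
      randomOracle R * 2⁻¹ ^ (2 * (n + a)) := by
    intro t ht
    rw [hI, Finset.mem_filter, Finset.mem_product, mem_wds, mem_wds] at ht
    rw [measure_ev hR]
    · rw [Finset.card_pair ht.2]
    · intro κ hκ
      rw [Finset.mem_insert, Finset.mem_singleton] at hκ
      rcases hκ with rfl | rfl
      · exact ht.1.1
      · exact ht.1.2
  rw [Finset.sum_congr rfl h1, Finset.sum_const, nsmul_eq_mul]
  have hc : ((I.card : ℕ) : ENNReal) ≤ 2 ^ n * 2 ^ n := by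
    have h2 : I.card ≤ 2 ^ n * 2 ^ n := by
      refine (Finset.card_filter_le _ _).trans ?_
      rw [Finset.card_product, card_wds]
    exact_mod_cast h2
  calc ((I.card : ℕ) : ENNReal) * (randomOracle R * 2⁻¹ ^ (2 * (n + a)))
      ≤ 2 ^ n * 2 ^ n * (randomOracle R * 2⁻¹ ^ (2 * (n + a))) := by gcongr
    _ = (2 ^ (2 * n) * 2⁻¹ ^ (2 * n)) * (2⁻¹ ^ (2 * a) * randomOracle R) := by
        rw [mul_add, pow_add, two_mul n, pow_add 2 n n]
        ring
    _ = 2⁻¹ ^ (2 * a) * randomOracle R := by
        rw [← mul_pow, ENNReal.mul_inv_cancel (by norm_num) (by norm_num), one_pow, one_mul]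

theorem loc_TwB {M : ℕ → Alg} {p : ℕ → Polynomial ℕ} {K i0 e : ℕ} (ok : Ok2 M p K i0 e) {i : ℕ}
    (hi : i0 ≤ i) {l : ℕ} (hl : l ≤ i) {c c' : ℕ} (hc : c < 2) (hc' : c' < 2) :
    Loc {x | x.length ≤ 2 ^ T i} (TwB e c c' i l) := by
  intro A A' hA
  have e1 := bx_le e l
  have e2 := le_T i
  have e3 := ok.big i hi
  have key : ∀ d < 2, ∀ w : List Bool, w.length = T i →
      (Hit (T i + bx e l) (d, w) A ↔ Hit (T i + bx e l) (d, w) A') := by
    intro d hd w hw
    refine forall₂_congr fun b hb => ?_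
    rw [hA]
    simp only [Set.mem_ofPred_eq]
    rw [length_pos]
    omega
  unfold TwB
  simp only [Set.mem_ofPred_eq]
  constructor
  · rintro ⟨w, w', hw, hw', hne, h1, h2⟩
    exact ⟨w, w', hw, hw', hne, (key c hc w hw).1 h1, (key c' hc' w' hw').1 h2⟩
  · rintro ⟨w, w', hw, hw', hne, h1, h2⟩
    exact ⟨w, w', hw, hw', hne, (key c hc w hw).2 h1, (key c' hc' w' hw').2 h2⟩

/-! ### The verifier accepts the hits -/

theorem decN2_iff {O : Oracle → Oracle} (E : Emb2 O) {M : ℕ → Alg} {p : ℕ → Polynomial ℕ}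
    {K i0 e : ℕ} (ok : Ok2 M p K i0 e) {i1 : ℕ} (hi1 : i0 ≤ i1) (A : Oracle) (c : ℕ)
    (x w : List Bool) :
    decN2 E.g M p K e i0 i1 x w ((askN2 E.g e c (x, w)).map (O A)) = true ↔
      ∃ i, i1 ≤ i ∧ x = List.replicate (T i) false ∧ w.length = T i ∧
        Hit (T i + bx e (lvG (Cap2 O M p K e) i0 A i)) (c, w) A := by
  have hans : (askN2 E.g e c (x, w)).map (O A) =
      (strs (lg x.length)).map (O A) ++ (asks (2 * x.length + (2 * e + 16)) c w).map A := by
    unfold askN2
    rw [List.map_append, map_map_emb E.toEmb]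
  have htake : ((askN2 E.g e c (x, w)).map (O A)).take (strs (lg x.length)).length =
      (strs (lg x.length)).map (O A) := by
    rw [hans, List.take_left' (by rw [List.length_map])]
  have hdrop : ((askN2 E.g e c (x, w)).map (O A)).drop (strs (lg x.length)).length =
      (asks (2 * x.length + (2 * e + 16)) c w).map A := by
    rw [hans, List.drop_left' (by rw [List.length_map])]
  have hlev : ∀ i, i1 ≤ i → x.length = T i →
      levL2 E.g M p K e i0 ((strs (lg x.length)).filter (O A)) x.length i = lvG (Cap2 O M p K e) i0 A i := by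
    intro i hi hx
    rw [hx]
    exact levL2_eq E ok (hi1.trans hi) fun y hy => ofL_filter' _ hy
  have hix : ∀ i, ix (T i) = 2 * i + 1 := fun i => ix_tw (2 * i)
  have hhit : ∀ i, x.length = T i →
      ((((asks (2 * x.length + (2 * e + 16)) c w).map A).take (x.length + bx e (lvG (Cap2 O M p K e) i0 A i))).all id = true ↔
        Hit (T i + bx e (lvG (Cap2 O M p K e) i0 A i)) (c, w) A) := by
    intro i hx
    rw [← List.map_take, ← asks_all]
    have e1 := bx_le e (lvG (Cap2 O M p K e) i0 A i)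
    have e2 := (lvG_le (Cap2 O M p K e) i0 A i).trans (le_T i)
    have e3 : (asks (2 * x.length + (2 * e + 16)) c w).take (x.length + bx e (lvG (Cap2 O M p K e) i0 A i)) =
        asks (T i + bx e (lvG (Cap2 O M p K e) i0 A i)) c w := by
      unfold asks
      rw [← List.map_take, take_range' _ _ (by omega), hx]
    rw [e3]
  unfold decN2
  rw [htake, hdrop, selL_map]
  simp only [Bool.and_eq_true, decide_eq_true_eq]
  constructor
  · rintro ⟨hx, hwl, h3, h4, h5⟩
    have hT : x.length = T (ix x.length / 2) := tw_of_ix h3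
    rw [hlev _ h4 hT] at h5
    refine ⟨ix x.length / 2, h4, ?_, by rw [hwl, ← hT], (hhit _ hT).1 h5⟩
    rw [← hT]
    exact hx
  · rintro ⟨i, hi, hx, hw, hh⟩
    have hl : x.length = T i := by rw [hx, List.length_replicate]
    have h1 : ix x.length = 2 * i + 1 := by rw [hl, hix]
    have h2 : ix x.length / 2 = i := by rw [h1]; omega
    rw [h2, hlev i hi hl]
    refine ⟨?_, by rw [hw, hl], h1, hi, (hhit i hl).2 hh⟩
    rw [hl]
    exact hx

/-- the new sets are in `UP` if there are no two hits -/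
theorem isUP_LgB {O : Oracle → Oracle} (E : Emb2 O) {M : ℕ → Alg} {p : ℕ → Polynomial ℕ}
    {K i0 e : ℕ} (ok : Ok2 M p K i0 e) {i1 : ℕ} (hi1 : i0 ≤ i1) (A : Oracle) (c : ℕ)
    (hU : ∀ i, i1 ≤ i → A ∉ TwB e c c i (lvG (Cap2 O M p K e) i0 A i)) :
    IsUP (O A) (LgB O M p K e i0 i1 A c) := by
  refine isUP_of_tt (O A) _ (Q := askN2 E.g e c)
    (T := fun z => decN2 E.g M p K e i0 i1 z.1.1 z.1.2 z.2) (p_askN2 e c E.pg)
    (p_decN2 M p K e i0 i1 E.pg) Polynomial.X (fun x => ?_) (fun x w w' hw hw' => ?_)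
  · constructor
    · rintro ⟨i, hi, hx, w, hw, hh⟩
      refine ⟨w, ?_, (decN2_iff E ok hi1 A c x w).2 ⟨i, hi, hx, hw, hh⟩⟩
      rw [Polynomial.eval_X, hx, List.length_replicate, hw]
    · rintro ⟨w, -, hw⟩
      obtain ⟨i, hi, hx, hwl, hh⟩ := (decN2_iff E ok hi1 A c x w).1 hw
      exact ⟨i, hi, hx, w, hwl, hh⟩
  · obtain ⟨i, hi, hx, hwl, hh⟩ := (decN2_iff E ok hi1 A c x w).1 hw
    obtain ⟨i', hi', hx', hwl', hh'⟩ := (decN2_iff E ok hi1 A c x w').1 hw'
    have hii : i' = i := by
      apply T_strictMono.injective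
      have h1 := congrArg List.length hx
      have h2 := congrArg List.length hx'
      rw [List.length_replicate] at h1 h2
      omega
    subst hii
    by_contra hne
    exact hU i' hi ⟨w, w', hwl, hwl', fun h => hne (Prod.ext_iff.1 h).2, hh, hh'⟩

end Pool.Agent.J4H25.NPB
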